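import Pool.Agent.H57.PC.Def2
import Pool.Agent.H38.BB.CLb

/-!
# [H57 LOW LOF] the twisted level one sum, 200-350 lines. File Pool/Agent/H57/LOW/Lof.lean

`c : CR p m N` with `L0 = 0` (the `x i` span), characters `θ i` with `dt (θ i) (x i) = 0`. `twsw`: the sum over `f ∈ Fam0` (with the spanning condition `SpR c 1 f`) of
`wtR c f F_1 * ep (∑ i, ∑ v ∈ f i, dt (θ i) (F_1 v))`, `F_1 v k = LL v (akR D c 1 f k)`, is `n * #Fam0 + O(Y (log Y)^(N - 3/2))`, `n` the number of unlinked families `ϑ` with `ϑ i - θ i ∈ Θ i` (`n ≥ 1` for `θ = 0`).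

Proof (as `H38.BB.dec` and `H38.BB.lb_mw`, files CDec, CLb, CSel, CBlk of Pool/Agent/H38/BB). Let `c' : CR p m N` be `x' = x`, `Θ' i = Θ i ⊔ span {θ i}` (`self` holds), `c'.L0 = 0`, `akR c' = akR c`, `SpR c' = SpR c`. `Cos ⊆ c'.J` the
types `a` with `a.2.1 - θ a.1 ∈ Θ a.1`.
(1) For `f` disjoint in `GF`: `wtR c f F * ep (∑ ∑ dt (θ i) (F v)) = ∏ i, ∏ v ∈ f i, ∑ a ∈ Cos.filter (·.1 = i), ep (dt a.2.1 (F v))` (`csel_wt` / `rx_char` for `Θ i`, reindex `δ ↦ δ + θ i`), and by `csel_inner` for `c'`, `S = Cos` this is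
the sum over `g` with `unR c' g = f` of `(if sup g ⊆ Cos then 1 else 0) * ep (ph D c'.pd 1 g)`. With `sl_sp` and `csel_gen` the sum of the theorem is `RW D c' 1 ∅ ω0 h0 Y`, `ω0 S = if SpA c' 1 S ∧ S ⊆ Cos then 1 else 0`,
`h0 q = if ∀ i, q i = 0 then 1 else 0` (`clR` of the classes: `rx_qf`; `Fam0` is the filter by `Dj`, norm and classes).
(2) `M = 1 + #JJ c'`, `ω S = (ω0 S - ∑ T ∈ (JJ c').filter (· ⊆ Cos), if S ⊆ T then 1 else 0) / M`. `blk` for `c'`, `b = 1`, `E = ∅` (`BS2`: `ord v 1 = 0`; `nr ∅ = 1 ≤ log Y ^ 0`) applies: `|ω| ≤ 1`; if `ω S ≠ 0` then `SpA c' 1 S` or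
`S ⊆ T ∈ JJ c'`; in the first case there is no pair `a ≠ a'` of the same class in `S` with `δ = θ_a - θ_a'` orthogonal to all `x` of `S` (`SpA`: `bp 1 δ = 1` is a `p`-th power); in the second case `T = Jt c' ϑ = {a | a.2.1 = ϑ a.1}`
(`L0 = 0`) has no two types of the same class. `Full c' S`: by `dec_full` (`Sp0 c' 1` holds because `L0 = 0`) `SpA c' 1 S` and exactly one `T ∈ JJ c'` contains `S`; `S` contains a type of every class (`Full`) and `T` has exactly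
one type for every class, so `S = T`; so `ω0 S = 1` iff `T ⊆ Cos` and `ω S = 0`.
(3) For `T = Jt c' ϑ ∈ JJ c'`, `T ⊆ Cos`: `RW D c' 1 ∅ (1[S ⊆ T]) h0 Y = MW D c' 1 ∅ ϑ h0 Y` (`mw_rw`) `= lbV D c' 1 Y` (`lb_mw`) `= #Fam0` (the weights `wtR c'.del` are `1`: `Θ ⊓ L0 = 0`).
(4) `n = #((JJ c').filter (· ⊆ Cos))`; for `θ = 0` the family `ϑ = 0` is unlinked and `Jt c' 0 ⊆ Cos`.
-/

set_option autoImplicit false

open scoped NumberField
open IsDedekindDomain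
open scoped Classical

noncomputable section

namespace H57.LOW

open H57.PC H63.MA H38.BB

variable {K : Type} [Field K] [NumberField K] {p : ℕ} {ζ : K} {m N : ℕ}

/-- the enlarged class data -/
private def lof_c (c : CR p m N) (θ : Fin N → Fin m → ZMod p) (hθ : ∀ i, dt (θ i) (c.x i) = 0) :
    CR p m N where
  x := c.x
  Θ i := c.Θ i ⊔ Submodule.span (ZMod p) {θ i}
  self := by
    intro i ϑ hϑ
    rw [Submodule.mem_sup] at hϑ
    obtain ⟨y, hy, z, hz, rfl⟩ := hϑ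
    rw [Submodule.mem_span_singleton] at hz
    obtain ⟨r, rfl⟩ := hz
    rw [aexp_dt_add, c.self i y hy, zero_add]
    have h : dt (r • θ i) (c.x i) = r * dt (θ i) (c.x i) := by
      simp only [dt, Pi.smul_apply, smul_eq_mul, Finset.mul_sum, mul_assoc]
    rw [h, hθ, mul_zero]

/-- the types in the coset of `θ` -/
private def lof_Cos [NeZero p] (c : CR p m N) (θ : Fin N → Fin m → ZMod p)
    (hθ : ∀ i, dt (θ i) (c.x i) = 0) : Finset (lof_c c θ hθ).J :=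
  Finset.univ.filter fun a => a.2.1 - θ a.1 ∈ c.Θ a.1

private theorem lof_fib [NeZero p] (c : CR p m N) (θ : Fin N → Fin m → ZMod p)
    (hθ : ∀ i, dt (θ i) (c.x i) = 0) (i : Fin N) (Ψ : (Fin m → ZMod p) → ℂ) :
    ∑ a ∈ (lof_Cos c θ hθ).filter (fun a => a.1 = i), Ψ a.2.1 =
      ∑ δ : {δ : Fin m → ZMod p // δ ∈ c.Θ i}, Ψ (θ i + δ.1) := by
  have h1 : (lof_Cos c θ hθ).filter (fun a => a.1 = i) =
      ((Finset.univ : Finset (lof_c c θ hθ).J).filter (fun a => a.1 = i)).filter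
        (fun a => a.2.1 - θ a.1 ∈ c.Θ a.1) := by
    unfold lof_Cos
    rw [Finset.filter_filter, Finset.filter_filter]
    exact Finset.filter_congr fun a _ => and_comm
  rw [h1, Finset.sum_filter,
    csel_fib (lof_c c θ hθ) i (fun a => if a.2.1 - θ a.1 ∈ c.Θ a.1 then Ψ a.2.1 else 0)]
  show ∑ ϑ : {ϑ : Fin m → ZMod p // ϑ ∈ (lof_c c θ hθ).Θ i},
    (if ϑ.1 - θ i ∈ c.Θ i then Ψ ϑ.1 else 0) = _
  rw [← Finset.sum_filter]
  have hmem : ∀ δ : {δ : Fin m → ZMod p // δ ∈ c.Θ i}, θ i + δ.1 ∈ (lof_c c θ hθ).Θ i := by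
    intro δ
    show θ i + δ.1 ∈ c.Θ i ⊔ Submodule.span (ZMod p) {θ i}
    rw [add_comm]
    exact Submodule.add_mem_sup δ.2 (Submodule.mem_span_singleton_self _)
  refine Finset.sum_bij' (fun ϑ hϑ => (⟨ϑ.1 - θ i, (Finset.mem_filter.1 hϑ).2⟩ :
      {δ : Fin m → ZMod p // δ ∈ c.Θ i}))
    (fun δ _ => (⟨θ i + δ.1, hmem δ⟩ : {ϑ : Fin m → ZMod p // ϑ ∈ (lof_c c θ hθ).Θ i}))
    ?_ ?_ ?_ ?_ ?_
  · intro ϑ _
    exact Finset.mem_univ _
  · intro δ _
    refine Finset.mem_filter.2 ⟨Finset.mem_univ _, ?_⟩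
    show θ i + δ.1 - θ i ∈ c.Θ i
    rw [add_sub_cancel_left]
    exact δ.2
  · intro ϑ _
    apply Subtype.ext
    show θ i + (ϑ.1 - θ i) = ϑ.1
    rw [add_sub_cancel]
  · intro δ _
    apply Subtype.ext
    show θ i + δ.1 - θ i = δ.1
    rw [add_sub_cancel_left]
  · intro ϑ _
    show Ψ ϑ.1 = Ψ (θ i + (ϑ.1 - θ i))
    rw [add_sub_cancel]

private theorem lof_ord (v : Pl K) : ord v (1 : Kˣ) = 0 := by
  unfold ord
  simp

private theorem lof_bs2 (D : RD0 K p ζ) : BS2 D (fun _ : Fin m => (1 : Kˣ)) ∅ :=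
  ⟨fun v hv => absurd hv (Finset.notMem_empty v), fun _ v _ _ => lof_ord v⟩

/-- the weight with the phase as a product over the coset -/
private theorem lof_prod [NeZero p] (hp : p.Prime) (c : CR p m N) (θ : Fin N → Fin m → ZMod p)
    (hθ : ∀ i, dt (θ i) (c.x i) = 0) (f : Fin N → Finset (Pl K)) (F : Pl K → Fin m → ZMod p) :
    ((wtR c f F : ℝ) : ℂ) * ep p (∑ i, ∑ v ∈ f i, dt (θ i) (F v)) =
      ∏ i, ∏ v ∈ f i, ∑ a ∈ (lof_Cos c θ hθ).filter (fun a => a.1 = i), ep p (dt a.2.1 (F v)) := by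
  rw [csel_ep_sum hp, csel_wt hp, ← Finset.prod_mul_distrib]
  refine Finset.prod_congr rfl fun i _ => ?_
  rw [csel_ep_sum hp, ← Finset.prod_mul_distrib]
  refine Finset.prod_congr rfl fun v _ => ?_
  rw [lof_fib c θ hθ i (fun x => ep p (dt x (F v))), Finset.sum_mul]
  refine Finset.sum_congr rfl fun δ _ => ?_
  rw [aexp_dt_add, ep_add hp, mul_comm]

/-- the sum of the theorem as a sum over the refined families -/
private theorem lof_rw [NeZero p] (hp : p.Prime) (hζ : IsPrimitiveRoot ζ p)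
    (D : RD K p ζ) (c : CR p m N) (θ : Fin N → Fin m → ZMod p)
    (hθ : ∀ i, dt (θ i) (c.x i) = 0) (Y : ℝ) :
    (∑ f ∈ Fam0 D.toRD0 N Y, if SpR c (fun _ => (1 : Kˣ)) f then
          ((wtR c f (fun v k => D.LL v (akR D.toRD0 c (fun _ => 1) f k)) : ℝ) : ℂ) *
            ep p (∑ i, ∑ v ∈ f i, dt (θ i) (fun k => D.LL v (akR D.toRD0 c (fun _ => 1) f k)))
          else 0) =
      RW D.toRD0 (lof_c c θ hθ) (fun _ => 1) ∅
        (fun S => if SpA (lof_c c θ hθ) (fun _ => (1 : Kˣ)) S ∧ S ⊆ lof_Cos c θ hθ then 1 else 0)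
        (fun q => if ∀ i, q i = 0 then 1 else 0) Y := by
  obtain ⟨c', hc'⟩ : ∃ c', c' = lof_c c θ hθ := ⟨_, rfl⟩
  have hcx : ∀ f : Fin N → Finset (Pl K), akR D.toRD0 (lof_c c θ hθ) (fun _ => (1 : Kˣ)) f =
      akR D.toRD0 c (fun _ => 1) f := fun f => rfl
  have hsp : ∀ f : Fin N → Finset (Pl K), SpR (lof_c c θ hθ) (fun _ => (1 : Kˣ)) f ↔
      SpR c (fun _ => (1 : Kˣ)) f := fun f => Iff.rfl
  have key := csel_gen D (lof_c c θ hθ) (fun _ => (1 : Kˣ)) ∅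
    (fun S => if SpA (lof_c c θ hθ) (fun _ => (1 : Kˣ)) S ∧ S ⊆ lof_Cos c θ hθ then 1 else 0)
    (fun q => if ∀ i, q i = 0 then 1 else 0) Y
    (fun f => (if ∀ i, qf D.toRD0 (f i) = 0 then (1 : ℂ) else 0) *
      (if SpR c (fun _ => (1 : Kˣ)) f then
        ((wtR c f (fun v k => D.LL v (akR D.toRD0 c (fun _ => 1) f k)) : ℝ) : ℂ) *
            ep p (∑ i, ∑ v ∈ f i, dt (θ i) (fun k => D.LL v (akR D.toRD0 c (fun _ => 1) f k)))
          else 0)) ?_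
  · rw [← key]
    unfold Fam0
    rw [Finset.sum_filter]
    refine Finset.sum_congr rfl fun f _ => ?_
    have hdis : ∀ i, Disjoint (f i) (∅ : Finset (Pl K)) := fun i => Finset.disjoint_empty_right _
    by_cases h1 : Dj f ∧ ∏ i, nr (f i) ≤ Y
    · rw [if_pos (show Dj f ∧ (∀ i, Disjoint (f i) (∅ : Finset (Pl K))) ∧ ∏ i, nr (f i) ≤ Y from
        ⟨h1.1, hdis, h1.2⟩)]
      by_cases h2 : ∀ i, qf D.toRD0 (f i) = 0
      · rw [if_pos ⟨h1.1, h1.2, h2⟩, if_pos h2, one_mul]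
      · rw [if_neg (fun h3 => h2 h3.2.2), if_neg h2, zero_mul]
    · rw [if_neg (fun h3 => h1 ⟨h3.1, h3.2.1⟩), if_neg (fun h3 => h1 ⟨h3.1, h3.2.2⟩)]
  · intro f hf hdj
    have hq : ∀ g : (lof_c c θ hθ).J → Finset (Pl K), Dj g → unR (lof_c c θ hθ) g = f →
        clR D.toRD0 (lof_c c θ hθ) (fun a => qf D.toRD0 (g a)) = fun i => qf D.toRD0 (f i) := by
      intro g hg hgf
      funext i
      rw [← rx_qf D.toRD0 (lof_c c θ hθ) g hg i, hgf]
    by_cases h2 : SpR c (fun _ => (1 : Kˣ)) f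
    · rw [if_pos h2, lof_prod hp c θ hθ]
      have h3 := csel_inner hp hζ D (lof_c c θ hθ) (fun _ => (1 : Kˣ)) (lof_Cos c θ hθ) Y f hf hdj
      rw [hcx] at h3
      rw [h3, Finset.mul_sum]
      refine Finset.sum_congr rfl fun g hg => ?_
      rw [Finset.mem_filter] at hg
      obtain ⟨-, hg2, hg3⟩ := hg
      have hS : SpA (lof_c c θ hθ) (fun _ => (1 : Kˣ)) (sup g) :=
        (sl_sp (lof_c c θ hθ) (fun _ => (1 : Kˣ)) g).1 (by rw [hg3]; exact (hsp f).2 h2)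
      rw [hq g hg2 hg3]
      have h5 : (if SpA (lof_c c θ hθ) (fun _ => (1 : Kˣ)) (sup g) ∧ sup g ⊆ lof_Cos c θ hθ then
          (1 : ℂ) else 0) = if sup g ⊆ lof_Cos c θ hθ then 1 else 0 := by
        by_cases h4 : sup g ⊆ lof_Cos c θ hθ
        · rw [if_pos h4, if_pos ⟨hS, h4⟩]
        · rw [if_neg h4, if_neg (fun h5 => h4 h5.2)]
      rw [h5]
      exact mul_left_comm _ _ _
    · rw [if_neg h2, mul_zero]
      refine (Finset.sum_eq_zero fun g hg => ?_).symm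
      rw [Finset.mem_filter] at hg
      obtain ⟨-, hg2, hg3⟩ := hg
      rw [if_neg (fun h4 => h2 ((hsp f).1 (by
        rw [← hg3]
        exact (sl_sp (lof_c c θ hθ) (fun _ => (1 : Kˣ)) g).2 h4.1))), zero_mul]

/-- the weights are `1` -/
private theorem lof_wt (c : CR p m N) (hc : ∀ i, ∀ δ ∈ c.Θ i, δ = 0) (f : Fin N → Finset (Pl K))
    (F : Pl K → Fin m → ZMod p) : wtR c f F = 1 := by
  unfold wtR
  refine Finset.prod_eq_one fun i _ => Finset.prod_eq_one fun v _ => ?_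
  rw [if_pos]
  · have h1 : c.Θ i = ⊥ := by
      rw [eq_bot_iff]
      intro δ hδ
      rw [Submodule.mem_bot]
      exact hc i δ hδ
    rw [h1]
    norm_num
  · intro δ hδ
    rw [hc i δ hδ]
    exact lb_dt_zero _

private theorem lof_lbV (D : RD0 K p ζ) (c : CR p m N) (hc : ∀ δ ∈ c.L0, δ = 0) (b : Fin m → Kˣ)
    (Y : ℝ) : lbV D c b Y = (Fam0 D N Y).card := by
  unfold lbV Fam0
  rw [Finset.card_filter, Nat.cast_sum]
  refine Finset.sum_congr rfl fun f _ => ?_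
  by_cases h1 : Dj f ∧ ∏ i, nr (f i) ≤ Y
  · rw [if_pos h1]
    by_cases h2 : ∀ i, qf D (f i) = 0
    · rw [if_pos h2, if_pos ⟨h1.1, h1.2, h2⟩, lof_wt c.del (fun i δ hδ => hc δ hδ.2), Nat.cast_one]
    · rw [if_neg h2, if_neg (fun h3 => h2 h3.2.2), Nat.cast_zero]
  · rw [if_neg h1, if_neg (fun h3 => h1 ⟨h3.1, h3.2.1⟩), Nat.cast_zero]

/-- full supports -/
private theorem lof_full [NeZero p] (c : CR p m N) (hc : ∀ δ ∈ c.L0, δ = 0) (S : Finset c.J)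
    (hS : Full c S) (T : Finset c.J) (hT : T ∈ JJ c) (hST : S ⊆ T) : S = T := by
  rw [JJ, Finset.mem_image] at hT
  obtain ⟨ϑ, hϑ, rfl⟩ := hT
  refine Finset.Subset.antisymm hST ?_
  intro a ha
  obtain ⟨Lg, hLS, hcl, _, _⟩ := hS
  obtain ⟨a', ha', h1⟩ := hcl a.1
  have h2 := hST (hLS ha')
  rw [Jt, Finset.mem_filter] at h2 ha
  have h3 := sub_eq_zero.1 (hc _ h2.2)
  have h4 := sub_eq_zero.1 (hc _ ha.2)
  have h5 : a' = a := by
    obtain ⟨i, y⟩ := a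
    obtain ⟨i', y'⟩ := a'
    simp only at h1 h3 h4
    subst h1
    have h6 : y' = y := Subtype.ext (h3.trans h4.symm)
    rw [h6]
  rw [← h5]
  exact hLS ha'

theorem twsw [NeZero p] (hp : p.Prime) (hp2 : MOne p K) (hζ : IsPrimitiveRoot ζ p)
    (D : RD K p ζ) (c : CR p m N) (hN : 1 ≤ N) (hc : ∀ δ ∈ c.L0, δ = 0)
    (θ : Fin N → Fin m → ZMod p) (hθ : ∀ i, dt (θ i) (c.x i) = 0) :
    ∃ (n : ℕ) (C X₀ : ℝ), (θ = 0 → 1 ≤ n) ∧ 0 < C ∧ 3 ≤ X₀ ∧ ∀ Y : ℝ, X₀ ≤ Y →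
      ‖(∑ f ∈ Fam0 D.toRD0 N Y, if SpR c (fun _ => (1 : Kˣ)) f then
          ((wtR c f (fun v k => D.LL v (akR D.toRD0 c (fun _ => 1) f k)) : ℝ) : ℂ) *
            ep p (∑ i, ∑ v ∈ f i, dt (θ i) (fun k => D.LL v (akR D.toRD0 c (fun _ => 1) f k)))
          else 0) - n * ((Fam0 D.toRD0 N Y).card : ℂ)‖ ≤
        C * Y * Real.log Y ^ (N - 1) * Real.log Y ^ (-(1 / 2) : ℝ) := by
  obtain ⟨C, X₀, hC, hX₀, hblk⟩ := blk hp hp2 hζ D (lof_c c θ hθ) hN 0
  have hc' : ∀ δ ∈ (lof_c c θ hθ).L0, δ = 0 := hc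
  have h0 : Sp0 (lof_c c θ hθ) (fun _ : Fin m => (1 : Kˣ)) := fun δ hδ hne => absurd (hc' δ hδ) hne
  obtain ⟨FF, hFF⟩ : ∃ FF : Finset (Finset (lof_c c θ hθ).J),
      FF = (JJ (lof_c c θ hθ)).filter (fun T => T ⊆ lof_Cos c θ hθ) := ⟨_, rfl⟩
  have hFmem : ∀ T, T ∈ FF ↔ T ∈ JJ (lof_c c θ hθ) ∧ T ⊆ lof_Cos c θ hθ := by
    intro T
    rw [hFF, Finset.mem_filter]
  refine ⟨FF.card, (1 + (FF.card : ℝ)) * C, X₀, ?_, by positivity, hX₀, ?_⟩
  · intro h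
    refine Finset.card_pos.2 ⟨Jt (lof_c c θ hθ) 0, ?_⟩
    rw [hFmem]
    refine ⟨?_, ?_⟩
    · unfold JJ
      rw [Finset.mem_image]
      refine ⟨0, ?_, rfl⟩
      rw [Finset.mem_filter]
      refine ⟨Finset.mem_univ _, fun i => Submodule.zero_mem _, fun i j => ?_⟩
      have e1 : dt ((0 : Fin N → Fin m → ZMod p) i) ((lof_c c θ hθ).x j) = 0 := lb_dt_zero _
      have e2 : dt ((0 : Fin N → Fin m → ZMod p) j) ((lof_c c θ hθ).x i) = 0 := lb_dt_zero _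
      rw [e1, e2, add_zero]
    · intro a ha
      rw [Jt, Finset.mem_filter] at ha
      unfold lof_Cos
      rw [Finset.mem_filter]
      refine ⟨Finset.mem_univ _, ?_⟩
      have h1 := sub_eq_zero.1 (hc' _ ha.2)
      have h3 : a.2.1 - θ a.1 = 0 := by
        rw [h1, congrFun h a.1, sub_self]
      rw [h3]
      exact (c.Θ a.1).zero_mem
  intro Y hY
  set M : ℝ := 1 + (FF.card : ℝ) with hM
  have hM0 : 0 < M := by positivity
  have hMc : ((M : ℝ) : ℂ) ≠ 0 := by exact_mod_cast hM0.ne'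
  set ω : Finset (lof_c c θ hθ).J → ℂ := fun S =>
    ((if SpA (lof_c c θ hθ) (fun _ => (1 : Kˣ)) S ∧ S ⊆ lof_Cos c θ hθ then (1 : ℂ) else 0) -
    ∑ T ∈ FF, if S ⊆ T then (1 : ℂ) else 0) / ((M : ℝ) : ℂ) with hω
  have hcard : ∀ S : Finset (lof_c c θ hθ).J, ∑ T ∈ FF, (if S ⊆ T then (1 : ℂ) else 0) =
      ((FF.filter fun T => S ⊆ T).card : ℂ) := by
    intro S
    rw [← Finset.sum_filter, Finset.sum_const, nsmul_eq_mul, mul_one]
  have hlin := dec_rw_lin D.toRD0 (lof_c c θ hθ) (fun _ => (1 : Kˣ)) ∅ FF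
    (fun S => if SpA (lof_c c θ hθ) (fun _ => (1 : Kˣ)) S ∧ S ⊆ lof_Cos c θ hθ then 1 else 0)
    (fun T S => if S ⊆ T then 1 else 0) (fun q => if ∀ i, q i = 0 then 1 else 0) Y
    ((M : ℝ) : ℂ) ω (by
      intro S
      simp only [hω]
      rw [mul_div_cancel₀ _ hMc])
  have hmain : ∀ T ∈ FF, RW D.toRD0 (lof_c c θ hθ) (fun _ => (1 : Kˣ)) ∅
      (fun S => if S ⊆ T then 1 else 0) (fun q => if ∀ i, q i = 0 then 1 else 0) Y =
      ((Fam0 D.toRD0 N Y).card : ℂ) := by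
    intro T hT
    have hT' := ((hFmem T).1 hT).1
    unfold JJ at hT'
    rw [Finset.mem_image] at hT'
    obtain ⟨ϑ, hϑ, rfl⟩ := hT'
    have hϑ' := (Finset.mem_filter.1 hϑ).2
    rw [← mw_rw hp hζ D (lof_c c θ hθ) (fun _ => (1 : Kˣ)) ∅ ϑ hϑ'.1,
      lb_mw hp hp2 hζ D (lof_c c θ hθ) (fun _ => (1 : Kˣ)) (lof_bs2 D.toRD0) ϑ hϑ' Y,
      lof_lbV D.toRD0 (lof_c c θ hθ) hc', Complex.ofReal_natCast]
  rw [Finset.sum_congr rfl hmain, Finset.sum_const, nsmul_eq_mul] at hlin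
  rw [lof_rw hp hζ D c θ hθ Y, hlin, norm_mul, Complex.norm_real, Real.norm_of_nonneg hM0.le]
  have hnr0 : nr (∅ : Finset (Pl K)) = 1 := by
    unfold nr
    rw [Finset.prod_empty]
  have h1 := hblk Y hY (fun _ => (1 : Kˣ)) ∅ (lof_bs2 D.toRD0) (by rw [hnr0, pow_zero]) ω
    ?_ ?_ ?_ (fun q => if ∀ i, q i = 0 then 1 else 0) ?_
  · calc M * ‖RW D.toRD0 (lof_c c θ hθ) (fun _ => (1 : Kˣ)) ∅ ω
          (fun q => if ∀ i, q i = 0 then 1 else 0) Y‖ ≤
        M * (C * Y * Real.log Y ^ (N - 1) * Real.log Y ^ (-(1 / 2) : ℝ)) :=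
          mul_le_mul_of_nonneg_left h1 hM0.le
      _ = _ := by ring
  · intro S
    simp only [hω]
    rw [norm_div, Complex.norm_real, Real.norm_of_nonneg hM0.le, div_le_one hM0, hcard]
    refine (norm_sub_le _ _).trans ?_
    rw [Complex.norm_natCast, hM]
    refine add_le_add ?_ ?_
    · split_ifs
      · rw [norm_one]
      · rw [norm_zero]
        exact zero_le_one
    · exact_mod_cast Finset.card_le_card (Finset.filter_subset _ _)
  · intro S hS a ha a' ha' h11 hne horth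
    have hδ : (lof_c c θ hθ).pd.θ a - (lof_c c θ hθ).pd.θ a' ≠ 0 := by
      intro h2
      apply hne
      have h3 : a.2.1 = a'.2.1 := sub_eq_zero.1 h2
      obtain ⟨i, y⟩ := a
      obtain ⟨i', y'⟩ := a'
      simp only at h11
      subst h11
      have h4 : y = y' := Subtype.ext h3
      rw [h4]
    by_cases h2 : SpA (lof_c c θ hθ) (fun _ => (1 : Kˣ)) S ∧ S ⊆ lof_Cos c θ hθ
    · rcases h2.1 _ hδ with ⟨a'', ha'', h3⟩ | h3
      · exact absurd (horth a'' ha'') h3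
      · exact h3
    · by_cases h3 : ∃ T ∈ FF, S ⊆ T
      · obtain ⟨T, hT, hST⟩ := h3
        have hT' := ((hFmem T).1 hT).1
        rw [JJ, Finset.mem_image] at hT'
        obtain ⟨ϑ, hϑ, rfl⟩ := hT'
        exfalso
        apply hδ
        have h4 := hST ha
        have h5 := hST ha'
        rw [Jt, Finset.mem_filter] at h4 h5
        have h6 := sub_eq_zero.1 (hc' _ h4.2)
        have h7 := sub_eq_zero.1 (hc' _ h5.2)
        have h8 : ϑ a.1 = ϑ a'.1 := congrArg ϑ h11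
        show a.2.1 - a'.2.1 = 0
        rw [h6, h7, h8, sub_self]
      · exfalso
        apply hS
        simp only [hω]
        rw [if_neg h2, Finset.sum_eq_zero, sub_zero, zero_div]
        intro T hT
        rw [if_neg (fun h4 => h3 ⟨T, hT, h4⟩)]
  · intro S hS
    obtain ⟨h2, h3⟩ := dec_full (lof_c c θ hθ) (fun _ => (1 : Kˣ)) h0 S hS
    rw [Finset.card_eq_one] at h3
    obtain ⟨T0, hT0⟩ := h3
    have hT0m : T0 ∈ JJ (lof_c c θ hθ) ∧ S ⊆ T0 := by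
      have : T0 ∈ (JJ (lof_c c θ hθ)).filter (fun T => S ⊆ T) := by
        rw [hT0]
        exact Finset.mem_singleton_self _
      exact Finset.mem_filter.1 this
    have hST0 : S = T0 := lof_full (lof_c c θ hθ) hc' S hS T0 hT0m.1 hT0m.2
    have hfil : ∀ T, T ∈ FF.filter (fun T => S ⊆ T) ↔ T = T0 ∧ S ⊆ lof_Cos c θ hθ := by
      intro T
      rw [Finset.mem_filter, hFmem]
      constructor
      · rintro ⟨⟨h4, h5⟩, h6⟩
        have h7 : T ∈ (JJ (lof_c c θ hθ)).filter (fun T => S ⊆ T) := Finset.mem_filter.2 ⟨h4, h6⟩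
        rw [hT0, Finset.mem_singleton] at h7
        exact ⟨h7, h6.trans h5⟩
      · rintro ⟨rfl, h5⟩
        refine ⟨⟨hT0m.1, ?_⟩, hT0m.2⟩
        rw [← hST0]
        exact h5
    simp only [hω]
    rw [hcard]
    by_cases h4 : S ⊆ lof_Cos c θ hθ
    · have h5 : FF.filter (fun T => S ⊆ T) = {T0} := by
        ext T
        rw [hfil, Finset.mem_singleton]
        exact ⟨fun h => h.1, fun h => ⟨h, h4⟩⟩
      rw [if_pos ⟨h2, h4⟩, h5, Finset.card_singleton, Nat.cast_one, sub_self, zero_div]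
    · have h5 : FF.filter (fun T => S ⊆ T) = ∅ := by
        rw [Finset.eq_empty_iff_forall_notMem]
        intro T hT
        exact h4 ((hfil T).1 hT).2
      rw [if_neg (fun h6 => h4 h6.2), h5, Finset.card_empty, Nat.cast_zero, sub_self, zero_div]
  · intro q
    split_ifs
    · rw [norm_one]
    · rw [norm_zero]
      exact zero_le_one

/-- the number of the families -/
theorem fam0_lower [NeZero p] (hp : p.Prime) (hp2 : MOne p K) (hζ : IsPrimitiveRoot ζ p)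
    (D : RD K p ζ) (hN : 1 ≤ N) : ∃ c X₀ : ℝ, 0 < c ∧ 3 ≤ X₀ ∧ ∀ Y : ℝ, X₀ ≤ Y →
      c * Y * Real.log Y ^ (N - 1) ≤ (Fam0 D.toRD0 N Y).card := by
  obtain ⟨c, X₀, hc, hX, h⟩ := lb hp hp2 hζ D
    (⟨fun _ _ => 0, fun _ => ⊥, fun i θ _ => by simp [dt]⟩ : CR p 0 N) hN (fun _ => 1)
    ⟨fun v hv => absurd hv (Finset.notMem_empty v), fun k => k.elim0⟩
    (fun θ hθ => absurd (Subsingleton.elim θ 0) hθ)
  refine ⟨c, X₀, hc, hX, fun Y hY => (h Y hY).trans (le_of_eq ?_)⟩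
  unfold Fam0
  rw [Finset.card_filter, Nat.cast_sum]
  refine Finset.sum_congr rfl fun f _ => ?_
  by_cases h1 : Dj f ∧ ∏ i, nr (f i) ≤ Y ∧ ∀ i, qf D.toRD0 (f i) = 0
  · rw [if_pos h1, if_pos h1, lof_wt _ (fun i δ hδ => (Submodule.mem_bot _).1 hδ), Nat.cast_one]
  · rw [if_neg h1, if_neg h1, Nat.cast_zero]

end H57.LOW
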