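import Pool.Agent.H57.LOW.Loe
import Pool.Agent.H57.LOW.Lof

/-!
# [H57 LOW LOG] the lower bound LB0 from the main identity, 100-180 lines. File Pool/Agent/H57/LOW/Log.lean

* `MId Dg Fr T` (the main identity): over the families of `Fam0` with a prime `> T Y` in every class, the sum of `FW f - ∑ ψ ∈ J0, AWf ψ f` is `o(Y (log Y)^(N - 1))`.
* `MLow D c T`: the level one weights over the spanning families of `Fam0` without a prime `> T Y` in some class are `o(Y (log Y)^(N - 1))`.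
* `lb0_of`: `RCard`, `MId`, `MLow` imply `LB0`.

Proof. `Big T f` implies `SpR Dg.cr 1 f`: all `f i ≠ ∅` and the `s i` span (`s_span`; `dt θ (s i) = 0` for all `i` implies `θ = 0`). `FW ≥ 0`, so
`F0 ≥ ∑ f ∈ Fam0, Big, FW f ≥ Re ∑ ψ ∈ J0, ∑ f ∈ Fam0, Big, AWf ψ f - ε Y (log Y)^(N - 1)`. For every `ψ ∈ J0`:
`∑_{Big} AWf ψ f = ∑_{SpR} AWf ψ f - ∑_{SpR, not Big} AWf ψ f`. By `awf_eq` (with `θ` of `ψ`) and `twsw` (`c = Dg.cr`, `L0 = 0` by `s_span`, `dt (θ i) (s i) = 0`) the first sum is `h n_ψ #Fam0` up to `h C Y (log Y)^(N-1) (log Y)^(-1/2)`, its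
real part is `≥ - h C ..` for all `ψ` and `≥ h #Fam0 - ..` for `ψ = 0` (`n ≥ 1`; `0 ∈ J0`). The second sum is at most `h * ε Y (log Y)^(N - 1)` in absolute value (`|ep| = 1`, `wtR ≥ 0`: `lb_wt_nonneg`). With `fam0_lower`
(`#Fam0 ≥ c Y (log Y)^(N - 1)`) and `ε` small compared with `c / (#J0 + 2)` the sum is at least `(c / 2) Y (log Y)^(N - 1)` for `Y` large (`h ≥ 1`; choose `ε = c / (4 (#J0 + 1))`, and `(log Y)^(-1/2)` small).
-/

set_option autoImplicit false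

open scoped NumberField
open IsDedekindDomain
open scoped Classical

noncomputable section

namespace H57.LOW

open H57.PC H57.BRA H63.MA H38.BB H38.BG

variable {K : Type} [Field K] [NumberField K] {p : ℕ} {ζ : K} {Ω : Type}
  [Field Ω] [Algebra K Ω] {m l w N : ℕ} {P R : Type} [Group P] [Group R]

/-- the main identity -/
def MId [NeZero p] {D : RD0 K p ζ} {L : LDs D Ω} (Dg : GP p m l w N P R) (Fr : FR L)
    (T : ℝ → ℝ) : Prop :=
  ∀ ε : ℝ, 0 < ε → ∃ X₀ : ℝ, 3 ≤ X₀ ∧ ∀ Y : ℝ, X₀ ≤ Y →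
    ‖∑ f ∈ (Fam0 D N Y).filter (fun f => Big (T Y) f),
      (((FW Dg Fr (fun _ => 1) ∅ (fun _ _ => 1) f : ℝ) : ℂ) -
        ∑ ψ ∈ J0 Dg, AWf Dg Fr (fun _ => 1) ∅ (fun _ _ => 1) ψ f)‖ ≤
      ε * Y * Real.log Y ^ (N - 1)

/-- the families without large primes in some class -/
def MLow [NeZero p] (D : RD0 K p ζ) (c : CR p m N) (T : ℝ → ℝ) : Prop :=
  ∀ ε : ℝ, 0 < ε → ∃ X₀ : ℝ, 3 ≤ X₀ ∧ ∀ Y : ℝ, X₀ ≤ Y →
    ∑ f ∈ (Fam0 D N Y).filter (fun f => SpR c (fun _ => (1 : Kˣ)) f ∧ ¬ Big (T Y) f),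
      wtR c f (fun v k => D.LL v (akR D c (fun _ => 1) f k)) ≤ ε * Y * Real.log Y ^ (N - 1)

theorem log_dt_zero (Dg : GP p m l w N P R) {θ : Fin m → ZMod p}
    (h : ∀ i, dt θ (Dg.s i) = 0) : θ = 0 := by
  have h1 : ∀ u : Fin m → ZMod p, dt θ u = 0 := by
    intro u
    have hu : u ∈ Submodule.span (ZMod p) (Set.range Dg.s) := by
      rw [s_span]
      exact Submodule.mem_top
    induction hu using Submodule.span_induction with
    | mem x hx =>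
      obtain ⟨i, rfl⟩ := hx
      exact h i
    | zero => simp [dt]
    | add x y _ _ hx hy =>
      have h2 : dt θ (x + y) = dt θ x + dt θ y := by
        simp only [dt, Pi.add_apply, mul_add, Finset.sum_add_distrib]
      rw [h2, hx, hy, add_zero]
    | smul a x _ hx =>
      have h2 : dt θ (a • x) = a * dt θ x := by
        simp only [dt, Pi.smul_apply, smul_eq_mul, Finset.mul_sum]
        refine Finset.sum_congr rfl fun k _ => ?_
        ring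
      rw [h2, hx, mul_zero]
  funext k
  have h2 := h1 (Pi.single k 1)
  unfold dt at h2
  rw [Finset.sum_eq_single k] at h2
  · rw [Pi.single_eq_same, mul_one] at h2
    exact h2
  · intro j _ hj
    rw [Pi.single_eq_of_ne hj, mul_zero]
  · intro hk
    exact absurd (Finset.mem_univ k) hk

theorem log_big [NeZero p] (Dg : GP p m l w N P R) (b : Fin m → Kˣ) {t : ℝ}
    {f : Fin N → Finset (Pl K)} (h : Big t f) : SpR Dg.cr b f := by
  intro θ hθ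
  left
  by_contra hcon
  apply hθ
  apply log_dt_zero Dg
  intro i
  by_contra hi
  apply hcon
  obtain ⟨v, hv, _⟩ := h i
  refine ⟨i, ?_, hi⟩
  intro h0
  rw [h0] at hv
  exact absurd hv (Finset.notMem_empty v)

theorem log_fw_nonneg [NeZero p] {D : RD0 K p ζ} {L : LDs D Ω} (Dg : GP p m l w N P R)
    (Fr : FR L) (b : Fin m → Kˣ) (E : Finset (Pl K)) (ε : Pl K → Gal(Ω/K) → R)
    (f : Fin N → Finset (Pl K)) : 0 ≤ FW Dg Fr b E ε f := by
  unfold FW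
  apply Finset.sum_nonneg
  intro ρ _
  split_ifs
  · exact Finset.prod_nonneg fun i _ => by positivity
  · exact le_rfl

/-- one family of characters -/
theorem log_one [NeZero p] [Finite P] [IsAlgClosure K Ω] (hp : p.Prime) (hp2 : p ≠ 2)
    (hζ : IsPrimitiveRoot ζ p) (hz : Z2 p K) {D : RD K p ζ} {L : LDs D.toRD0 Ω}
    (Dg : GP p m l w N P R) (Fr : FR L) (hN : 1 ≤ N) {h : ℕ} (hR : RCard L Dg h) (T : ℝ → ℝ)
    (ψ : Fin N → Fin l → ZMod p) (hψ : InJ0 Dg ψ) :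
    ∃ (n : ℕ) (C X₀ : ℝ), (ψ = 0 → 1 ≤ n) ∧ 0 < C ∧ 3 ≤ X₀ ∧ ∀ Y : ℝ, X₀ ≤ Y →
      h * (n * ((Fam0 D.toRD0 N Y).card : ℝ)) -
          h * (C * Y * Real.log Y ^ (N - 1) * Real.log Y ^ (-(1 / 2) : ℝ)) -
          h * (∑ f ∈ (Fam0 D.toRD0 N Y).filter
              (fun f => SpR Dg.cr (fun _ => (1 : Kˣ)) f ∧ ¬ Big (T Y) f),
            wtR Dg.cr f (fun v k => D.LL v (akR D.toRD0 Dg.cr (fun _ => 1) f k))) ≤
        (∑ f ∈ (Fam0 D.toRD0 N Y).filter (fun f => Big (T Y) f),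
          AWf Dg Fr (fun _ => 1) ∅ (fun _ _ => 1) ψ f).re := by
  obtain ⟨θ, hθ, hθ0, hA⟩ := awf_eq hp hp2 hζ hz Dg Fr hR ψ hψ
  obtain ⟨n, C, X₀, hn, hC, hX, hT⟩ := twsw hp (mone_odd hp hp2 K) hζ D Dg.cr hN
    (fun δ hδ => log_dt_zero Dg fun i => hδ i) θ hθ
  refine ⟨n, C, X₀, fun h0 => hn (hθ0 h0), hC, hX, fun Y hY => ?_⟩
  have hT1 := hT Y hY
  set Fa := Fam0 D.toRD0 N Y with hFa
  set W : (Fin N → Finset (Pl K)) → ℝ := fun f =>
    wtR Dg.cr f (fun v k => D.LL v (akR D.toRD0 Dg.cr (fun _ => 1) f k)) with hW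
  set A : (Fin N → Finset (Pl K)) → ℂ := fun f =>
    AWf Dg Fr (fun _ => 1) ∅ (fun _ _ => 1) ψ f with hAd
  set e : (Fin N → Finset (Pl K)) → ℂ := fun f =>
    ep p (∑ i, ∑ v ∈ f i, dt (θ i) (fun k => D.LL v (akR D.toRD0 Dg.cr (fun _ => 1) f k)))
    with he
  have hA1 : ∀ f ∈ Fa, A f = h * (((W f : ℝ) : ℂ) * e f) := by
    intro f hf
    have h1 := hA Y f hf
    simp only [hAd, hW, he]
    rw [h1]
    ring
  have hW0 : ∀ f, 0 ≤ W f := fun f => lb_wt_nonneg _ _ _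
  -- the sum over the spanning families
  have hS : ∑ f ∈ Fa.filter (fun f => SpR Dg.cr (fun _ => (1 : Kˣ)) f), A f =
      h * ∑ f ∈ Fa, if SpR Dg.cr (fun _ => (1 : Kˣ)) f then ((W f : ℝ) : ℂ) * e f else 0 := by
    rw [Finset.sum_filter, Finset.mul_sum]
    refine Finset.sum_congr rfl fun f hf => ?_
    rw [mul_ite, mul_zero, hA1 f hf]
  have hsplit : ∑ f ∈ Fa.filter (fun f => SpR Dg.cr (fun _ => (1 : Kˣ)) f), A f =
      ∑ f ∈ Fa.filter (fun f => Big (T Y) f), A f +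
      ∑ f ∈ Fa.filter (fun f => SpR Dg.cr (fun _ => (1 : Kˣ)) f ∧ ¬ Big (T Y) f), A f := by
    rw [← Finset.sum_filter_add_sum_filter_not
      (Fa.filter (fun f => SpR Dg.cr (fun _ => (1 : Kˣ)) f)) (fun f => Big (T Y) f) A]
    congr 1
    · rw [Finset.filter_filter]
      refine Finset.sum_congr ?_ fun _ _ => rfl
      ext f
      simp only [Finset.mem_filter]
      constructor
      · rintro ⟨h1, _, h3⟩
        exact ⟨h1, h3⟩
      · rintro ⟨h1, h3⟩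
        exact ⟨h1, log_big Dg _ h3, h3⟩
    · rw [Finset.filter_filter]
  have hlow : ‖∑ f ∈ Fa.filter
      (fun f => SpR Dg.cr (fun _ => (1 : Kˣ)) f ∧ ¬ Big (T Y) f), A f‖ ≤
      h * ∑ f ∈ Fa.filter (fun f => SpR Dg.cr (fun _ => (1 : Kˣ)) f ∧ ¬ Big (T Y) f), W f := by
    refine (norm_sum_le _ _).trans ?_
    rw [Finset.mul_sum]
    refine Finset.sum_le_sum fun f hf => ?_
    rw [hA1 f (Finset.mem_filter.1 hf).1, norm_mul, norm_mul, Complex.norm_natCast,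
      Complex.norm_real, Real.norm_of_nonneg (hW0 f)]
    simp only [he]
    rw [ep_norm, mul_one]
  set Z : ℂ := ∑ f ∈ Fa, if SpR Dg.cr (fun _ => (1 : Kˣ)) f then ((W f : ℝ) : ℂ) * e f else 0
    with hZ
  have hZre : n * (Fa.card : ℝ) - C * Y * Real.log Y ^ (N - 1) * Real.log Y ^ (-(1 / 2) : ℝ) ≤
      Z.re := by
    have h1 : |(Z - n * (Fa.card : ℂ)).re| ≤ ‖Z - n * (Fa.card : ℂ)‖ := Complex.abs_re_le_norm _
    have h2 := h1.trans hT1
    have h3 : (Z - n * (Fa.card : ℂ)).re = Z.re - n * (Fa.card : ℝ) := by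
      rw [Complex.sub_re]
      congr 1
      have : ((n : ℂ) * (Fa.card : ℂ)) = (((n : ℝ) * (Fa.card : ℝ) : ℝ) : ℂ) := by
        push_cast
        rfl
      rw [this, Complex.ofReal_re]
    rw [h3, abs_le] at h2
    linarith [h2.1]
  have hB : (∑ f ∈ Fa.filter (fun f => Big (T Y) f), A f).re = h * Z.re -
      (∑ f ∈ Fa.filter (fun f => SpR Dg.cr (fun _ => (1 : Kˣ)) f ∧ ¬ Big (T Y) f), A f).re := by
    have h1 := congrArg Complex.re hsplit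
    rw [hS, Complex.add_re] at h1
    have h2 : ((h : ℂ) * Z).re = h * Z.re := by
      rw [Complex.mul_re, Complex.natCast_re, Complex.natCast_im, zero_mul, sub_zero]
    rw [h2] at h1
    linarith
  rw [hB]
  have h1 := (Complex.abs_re_le_norm (∑ f ∈ Fa.filter
    (fun f => SpR Dg.cr (fun _ => (1 : Kˣ)) f ∧ ¬ Big (T Y) f), A f)).trans hlow
  rw [abs_le] at h1
  have hh : (0 : ℝ) ≤ h := Nat.cast_nonneg h
  have h2 := mul_le_mul_of_nonneg_left hZre hh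
  have h3 := h1.2
  linarith

theorem lb0_of [NeZero p] [Finite P] [IsAlgClosure K Ω] (hp : p.Prime) (hp2 : p ≠ 2)
    (hζ : IsPrimitiveRoot ζ p) (hz : Z2 p K) {D : RD K p ζ} {L : LDs D.toRD0 Ω}
    (Dg : GP p m l w N P R) (Fr : FR L) (hN : 1 ≤ N) {h : ℕ} (hR : RCard L Dg h) (T : ℝ → ℝ)
    (h1 : MId Dg Fr T) (h2 : MLow D.toRD0 Dg.cr T) : LB0 Dg Fr := by
  have hZ : InJ0 Dg (0 : Fin N → Fin l → ZMod p) := by
    refine ⟨fun i v _ => by simp [dt], fun i j k => by simp [dt]⟩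
  have h0J : (0 : Fin N → Fin l → ZMod p) ∈ J0 Dg :=
    Finset.mem_filter.2 ⟨Finset.mem_univ _, hZ⟩
  have h3 : ∀ ψ : Fin N → Fin l → ZMod p, ∃ (n : ℕ) (C X₀ : ℝ), InJ0 Dg ψ →
      ((ψ = 0 → 1 ≤ n) ∧ 0 < C ∧ 3 ≤ X₀ ∧ ∀ Y : ℝ, X₀ ≤ Y →
      h * (n * ((Fam0 D.toRD0 N Y).card : ℝ)) -
          h * (C * Y * Real.log Y ^ (N - 1) * Real.log Y ^ (-(1 / 2) : ℝ)) -
          h * (∑ f ∈ (Fam0 D.toRD0 N Y).filter
              (fun f => SpR Dg.cr (fun _ => (1 : Kˣ)) f ∧ ¬ Big (T Y) f),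
            wtR Dg.cr f (fun v k => D.LL v (akR D.toRD0 Dg.cr (fun _ => 1) f k))) ≤
        (∑ f ∈ (Fam0 D.toRD0 N Y).filter (fun f => Big (T Y) f),
          AWf Dg Fr (fun _ => 1) ∅ (fun _ _ => 1) ψ f).re) := by
    intro ψ
    by_cases hψ : InJ0 Dg ψ
    · obtain ⟨n, C, X₀, H⟩ := log_one hp hp2 hζ hz Dg Fr hN hR T ψ hψ
      exact ⟨n, C, X₀, fun _ => H⟩
    · exact ⟨0, 0, 0, fun h' => absurd h' hψ⟩
  choose n C X hP using h3
  have hPJ : ∀ ψ ∈ J0 Dg, InJ0 Dg ψ := fun ψ hψ => (Finset.mem_filter.1 hψ).2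
  obtain ⟨c0, X0, hc0, hX0, hfam⟩ := fam0_lower hp (mone_odd hp hp2 K) hζ D hN
  set j : ℝ := ((J0 Dg).card : ℝ) with hj
  have hj0 : 0 ≤ j := Nat.cast_nonneg _
  set ε : ℝ := c0 / (4 * (j + 1)) with hε
  have hε0 : 0 < ε := by positivity
  obtain ⟨X1, hX1, hM1⟩ := h1 ε hε0
  obtain ⟨X2, hX2, hM2⟩ := h2 ε hε0
  set Ct : ℝ := ∑ ψ ∈ J0 Dg, C ψ with hCt
  have ht : Filter.Tendsto (fun Y : ℝ => Ct * Real.log Y ^ (-(1 / 2) : ℝ)) Filter.atTop
      (nhds (Ct * 0)) :=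
    ((tendsto_rpow_neg_atTop (by norm_num : (0 : ℝ) < 1 / 2)).comp
      Real.tendsto_log_atTop).const_mul Ct
  rw [mul_zero] at ht
  have hev := ht.eventually (gt_mem_nhds (by positivity : (0 : ℝ) < c0 / 4))
  obtain ⟨X3, hX3⟩ := Filter.eventually_atTop.1 hev
  set Xs : ℝ := ∑ ψ ∈ J0 Dg, X ψ with hXs
  have hXψ : ∀ ψ ∈ J0 Dg, X ψ ≤ Xs := by
    intro ψ hψ
    exact Finset.single_le_sum (f := X)
      (fun χ hχ => le_trans (by norm_num) (hP χ (hPJ χ hχ)).2.2.1) hψ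
  refine ⟨c0 / 2, max (max X0 X1) (max X2 (max X3 Xs)), by positivity, ?_, fun Y hY => ?_⟩
  · exact hX0.trans ((le_max_left _ _).trans (le_max_left _ _))
  have hY0 : X0 ≤ Y := ((le_max_left _ _).trans (le_max_left _ _)).trans hY
  have hY1 : X1 ≤ Y := ((le_max_right _ _).trans (le_max_left _ _)).trans hY
  have hY2 : X2 ≤ Y := ((le_max_left _ _).trans (le_max_right _ _)).trans hY
  have hY3 : X3 ≤ Y :=
    ((le_max_left _ _).trans ((le_max_right _ _).trans (le_max_right _ _))).trans hY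
  have hYs : Xs ≤ Y :=
    ((le_max_right _ _).trans ((le_max_right _ _).trans (le_max_right _ _))).trans hY
  have hY3' : 3 ≤ Y := hX0.trans hY0
  have hlog : 0 ≤ Real.log Y := Real.log_nonneg (by linarith)
  set M : ℝ := Y * Real.log Y ^ (N - 1) with hM
  have hM0 : 0 ≤ M := mul_nonneg (by linarith) (pow_nonneg hlog _)
  set Fa := Fam0 D.toRD0 N Y with hFa
  -- the lower bound by the families with large primes
  have hF : ∑ f ∈ Fa.filter (fun f => Big (T Y) f),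
      FW Dg Fr (fun _ => 1) ∅ (fun _ _ => 1) f ≤ F0 Dg Fr Y := by
    unfold F0
    rw [Finset.sum_filter]
    refine Finset.sum_le_sum fun f _ => ?_
    by_cases hb : Big (T Y) f
    · rw [if_pos hb, if_pos (log_big Dg _ hb)]
    · rw [if_neg hb]
      split_ifs
      · exact log_fw_nonneg Dg Fr _ _ _ _
      · exact le_rfl
  have hmain := hM1 Y hY1
  set G : ℂ := ∑ f ∈ Fa.filter (fun f => Big (T Y) f),
      (((FW Dg Fr (fun _ => 1) ∅ (fun _ _ => 1) f : ℝ) : ℂ) -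
        ∑ ψ ∈ J0 Dg, AWf Dg Fr (fun _ => 1) ∅ (fun _ _ => 1) ψ f) with hG
  have hGe : (∑ f ∈ Fa.filter (fun f => Big (T Y) f),
      FW Dg Fr (fun _ => 1) ∅ (fun _ _ => 1) f : ℝ) = G.re +
      ∑ ψ ∈ J0 Dg, (∑ f ∈ Fa.filter (fun f => Big (T Y) f),
        AWf Dg Fr (fun _ => 1) ∅ (fun _ _ => 1) ψ f).re := by
    rw [hG, Finset.sum_sub_distrib, Complex.sub_re, Finset.sum_comm, ← Complex.re_sum,
      ← Complex.ofReal_sum, Complex.ofReal_re]
    ring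
  have hGre : -(ε * M) ≤ G.re := by
    have h4 := (Complex.abs_re_le_norm G).trans hmain
    rw [abs_le] at h4
    have h5 : ε * Y * Real.log Y ^ (N - 1) = ε * M := by rw [hM]; ring
    rw [h5] at h4
    exact h4.1
  have hlow := hM2 Y hY2
  set Q : ℝ := ∑ f ∈ Fa.filter (fun f => SpR Dg.cr (fun _ => (1 : Kˣ)) f ∧ ¬ Big (T Y) f),
      wtR Dg.cr f (fun v k => D.LL v (akR D.toRD0 Dg.cr (fun _ => 1) f k)) with hQ
  have hQM : Q ≤ ε * M := by
    refine hlow.trans (le_of_eq ?_)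
    rw [hM]
    ring
  have hh : (1 : ℝ) ≤ h := by exact_mod_cast hR.1
  have hψs : ∀ ψ ∈ J0 Dg, h * ((n ψ : ℝ) * (Fa.card : ℝ)) -
      h * (C ψ * (M * Real.log Y ^ (-(1 / 2) : ℝ))) - h * (ε * M) ≤
      (∑ f ∈ Fa.filter (fun f => Big (T Y) f),
        AWf Dg Fr (fun _ => 1) ∅ (fun _ _ => 1) ψ f).re := by
    intro ψ hψ
    have h4 := (hP ψ (hPJ ψ hψ)).2.2.2 Y ((hXψ ψ hψ).trans hYs)
    refine le_trans ?_ h4
    have h5 : C ψ * Y * Real.log Y ^ (N - 1) * Real.log Y ^ (-(1 / 2) : ℝ) =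
        C ψ * (M * Real.log Y ^ (-(1 / 2) : ℝ)) := by rw [hM]; ring
    rw [h5]
    have h6 : (h : ℝ) * Q ≤ h * (ε * M) := mul_le_mul_of_nonneg_left hQM (by linarith)
    linarith
  have hsum := Finset.sum_le_sum hψs
  have hn0 : (Fa.card : ℝ) ≤ ∑ ψ ∈ J0 Dg, (n ψ : ℝ) * (Fa.card : ℝ) := by
    have h4 : (1 : ℝ) ≤ n 0 := by exact_mod_cast (hP 0 hZ).1 rfl
    have h5 : (n 0 : ℝ) * (Fa.card : ℝ) ≤ ∑ ψ ∈ J0 Dg, (n ψ : ℝ) * (Fa.card : ℝ) :=
      Finset.single_le_sum (f := fun ψ => (n ψ : ℝ) * (Fa.card : ℝ))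
        (fun ψ _ => by positivity) h0J
    have h6 : (Fa.card : ℝ) ≤ n 0 * Fa.card := le_mul_of_one_le_left (Nat.cast_nonneg _) h4
    exact h6.trans h5
  have hS1 : ∑ ψ ∈ J0 Dg, (h * ((n ψ : ℝ) * (Fa.card : ℝ)) -
      h * (C ψ * (M * Real.log Y ^ (-(1 / 2) : ℝ))) - h * (ε * M)) =
      h * (∑ ψ ∈ J0 Dg, (n ψ : ℝ) * (Fa.card : ℝ)) -
        h * (Ct * (M * Real.log Y ^ (-(1 / 2) : ℝ))) - j * (h * (ε * M)) := by
    rw [Finset.sum_sub_distrib, Finset.sum_sub_distrib, Finset.sum_const, nsmul_eq_mul,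
      ← Finset.mul_sum, ← Finset.mul_sum, hCt, Finset.sum_mul]
  rw [hS1] at hsum
  have hcard : c0 * M ≤ Fa.card := by
    have h4 := hfam Y hY0
    have h5 : c0 * Y * Real.log Y ^ (N - 1) = c0 * M := by rw [hM]; ring
    rw [h5] at h4
    exact h4
  have hC4 : Ct * Real.log Y ^ (-(1 / 2) : ℝ) ≤ c0 / 4 := (hX3 Y hY3).le
  have hCM : Ct * (M * Real.log Y ^ (-(1 / 2) : ℝ)) ≤ c0 / 4 * M := by
    have h4 := mul_le_mul_of_nonneg_right hC4 hM0
    calc Ct * (M * Real.log Y ^ (-(1 / 2) : ℝ)) =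
        Ct * Real.log Y ^ (-(1 / 2) : ℝ) * M := by ring
      _ ≤ c0 / 4 * M := h4
  have hεj : (j + 1) * ε = c0 / 4 := by
    rw [hε]
    field_simp
  -- combine
  have hfin : h * (c0 * M) - h * (c0 / 4 * M) - h * (c0 / 4 * M) ≤
      ∑ f ∈ Fa.filter (fun f => Big (T Y) f), FW Dg Fr (fun _ => 1) ∅ (fun _ _ => 1) f := by
    rw [hGe]
    have hh0 : (0 : ℝ) ≤ h := by linarith
    have h4 : h * (c0 * M) ≤ h * (∑ ψ ∈ J0 Dg, (n ψ : ℝ) * (Fa.card : ℝ)) :=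
      mul_le_mul_of_nonneg_left (hcard.trans hn0) hh0
    have h5 : h * (Ct * (M * Real.log Y ^ (-(1 / 2) : ℝ))) ≤ h * (c0 / 4 * M) :=
      mul_le_mul_of_nonneg_left hCM hh0
    have h6 : ε * M ≤ h * (ε * M) := le_mul_of_one_le_left (by positivity) hh
    have h7 : j * (h * (ε * M)) + h * (ε * M) = h * (c0 / 4 * M) := by
      rw [← hεj]
      ring
    linarith
  have hfin2 : c0 / 2 * M ≤ h * (c0 * M) - h * (c0 / 4 * M) - h * (c0 / 4 * M) := by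
    have h4 : h * (c0 * M) - h * (c0 / 4 * M) - h * (c0 / 4 * M) = h * (c0 / 2 * M) := by ring
    rw [h4]
    exact le_mul_of_one_le_left (by positivity) hh
  calc c0 / 2 * Y * Real.log Y ^ (N - 1) = c0 / 2 * M := by rw [hM]; ring
    _ ≤ F0 Dg Fr Y := hfin2.trans (hfin.trans hF)

end H57.LOW
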