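import Mathlib

/-!
# [H57 LOW EPB] a trilinear 3-cocycle that is a coboundary, 60-120 lines. File Pool/Agent/H57/LOW/Epb.lean

`p` odd, `τ` antisymmetric in the first two indices with cyclic sum `0`.
* `tri`: `2⁻¹ τ = s + s'`, `s` symmetric in the first two indices, `s'` in the last two. Explicit solution:
  `s i j k = if k ≤ i ∧ k ≤ j then 0 else if i ≤ j then -2⁻¹ * τ i k j else -2⁻¹ * τ j k i`, `s' i j k = 2⁻¹ * τ i j k - s i j k`.
  Symmetry of `s`: clear (for `i = j` both formulas agree). For `s'` we need `s i j k - s i k j = 2⁻¹ (τ i j k - τ i k j)`: distinguish the order of `i, j, k` (with ties): with the minimum `r` of the three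
  indices, `s i j k = α_k` with `α_r = 0`, `α_k = -2⁻¹ τ r k x` (`x` the remaining index) and in all cases `α_k - α_j = 2⁻¹ τ k j i = 2⁻¹ (τ i j k - τ i k j)`: use `τ j i k = -τ i j k`,
  `τ i j k + τ j k i + τ k i j = 0`, and `τ i i k = 0` (`2` is invertible). Lean: `rcases lt_trichotomy` three times or `split_ifs` with `omega` on the values, then `linear_combination`.
* `tco`: `t a c = -2⁻¹ * ∑ s i j k a_i a_j c_k + 2⁻¹ * ∑ s' i j k a_i c_j c_k`. With `S a b c = ∑ s i j k a_i b_j c_k` (symmetric in `a, b`), `S'` (symmetric in `b, c`):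
  for `t1 a c = S a a c`: `t1 b c + t1 a (b + c) - t1 (a + b) c - t1 a b = -2 S a b c`; for `t2 a c = S' a c c` the same expression is `2 S' a b c`.
  (Expand with `Finset.sum_add_distrib` or define `S` with `LinearMap.mk₂`/`MultilinearMap`, or prove additivity of `S` in each argument and use `linear_combination`.)
-/

set_option autoImplicit false

noncomputable section

namespace H57.LOW

theorem tri {p m : ℕ} (hp : p.Prime) (hp2 : p ≠ 2) (τ : Fin m → Fin m → Fin m → ZMod p)
    (h1 : ∀ i j k, τ j i k = -τ i j k) (h2 : ∀ i j k, τ i j k + τ j k i + τ k i j = 0) :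
    ∃ s s' : Fin m → Fin m → Fin m → ZMod p, (∀ i j k, s i j k = s j i k) ∧
      (∀ i j k, s' i j k = s' i k j) ∧ ∀ i j k, s i j k + s' i j k = 2⁻¹ * τ i j k := by
  have : Fact p.Prime := ⟨hp⟩
  have h2ne : (2 : ZMod p) ≠ 0 := by
    intro h
    have h3 : ((2 : ℕ) : ZMod p) = 0 := by exact_mod_cast h
    rw [ZMod.natCast_eq_zero_iff] at h3
    exact hp2 ((Nat.prime_dvd_prime_iff_eq hp Nat.prime_two).1 h3)
  obtain ⟨a, ha⟩ : ∃ a : ZMod p, a = 2⁻¹ := ⟨_, rfl⟩
  rw [← ha]
  have h0 : ∀ i k, τ i i k = 0 := by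
    intro i k
    have h := h1 i i k
    have h' : (2 : ZMod p) * τ i i k = 0 := by linear_combination h
    exact (mul_eq_zero.1 h').resolve_left h2ne
  obtain ⟨s, hs⟩ : ∃ s : Fin m → Fin m → Fin m → ZMod p, ∀ i j k, s i j k =
      if k ≤ i ∧ k ≤ j then 0 else if i ≤ j then -a * τ i k j else -a * τ j k i :=
    ⟨fun i j k => if k ≤ i ∧ k ≤ j then 0 else if i ≤ j then -a * τ i k j else -a * τ j k i,
      fun _ _ _ => rfl⟩
  refine ⟨s, fun i j k => a * τ i j k - s i j k, ?_, ?_, fun i j k => by ring⟩
  · intro i j k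
    rw [hs i j k, hs j i k]
    by_cases c1 : k ≤ i ∧ k ≤ j
    · rw [if_pos c1, if_pos ⟨c1.2, c1.1⟩]
    · have c2 : ¬ (k ≤ j ∧ k ≤ i) := fun h => c1 ⟨h.2, h.1⟩
      rw [if_neg c1, if_neg c2]
      rcases lt_trichotomy i j with h | h | h
      · rw [if_pos h.le, if_neg (not_le.2 h)]
      · subst h
        rfl
      · rw [if_neg (not_le.2 h), if_pos h.le]
  · intro i j k
    have key : s i j k - s i k j = -a * τ j k i := by
      rw [hs i j k, hs i k j]
      by_cases c1 : k ≤ i ∧ k ≤ j
      · rw [if_pos c1]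
        by_cases c2 : j ≤ i ∧ j ≤ k
        · rw [if_pos c2]
          have h3 : j = k := le_antisymm c2.2 c1.2
          subst h3
          rw [h0]
          ring
        · rw [if_neg c2]
          by_cases c3 : i ≤ k
          · rw [if_pos c3]
            have h3 : k = i := le_antisymm c1.1 c3
            subst h3
            have h4 := h1 j k k
            linear_combination (a) * h4
          · rw [if_neg c3]
            have h4 := h1 j k i
            linear_combination (a) * h4
      · rw [if_neg c1]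
        by_cases c2 : i ≤ j
        · rw [if_pos c2]
          have hki : i < k := by
            by_contra hcon
            push Not at hcon
            exact c1 ⟨hcon, hcon.trans c2⟩
          by_cases c3 : j ≤ i ∧ j ≤ k
          · rw [if_pos c3]
            have h3 : i = j := le_antisymm c2 c3.1
            subst h3
            ring
          · rw [if_neg c3, if_pos hki.le]
            have h4 := h1 i k j
            have h5 := h2 i j k
            linear_combination (a) * h5 - a * h4
        · rw [if_neg c2]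
          push Not at c2
          have hjk : j < k := by
            by_contra hcon
            push Not at hcon
            exact c1 ⟨hcon.trans c2.le, hcon⟩
          rw [if_pos ⟨c2.le, hjk.le⟩]
          ring
    have h4 := h1 i k j
    have h5 := h2 i j k
    linear_combination (a) * h5 - a * h4 - key

/-- The trilinear form with coefficients `s`. -/
def trl {p m : ℕ} (s : Fin m → Fin m → Fin m → ZMod p) (a b c : Fin m → ZMod p) : ZMod p :=
  ∑ i, ∑ j, ∑ k, s i j k * a i * b j * c k

theorem trl_add1 {p m : ℕ} (s : Fin m → Fin m → Fin m → ZMod p) (a a' b c : Fin m → ZMod p) :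
    trl s (a + a') b c = trl s a b c + trl s a' b c := by
  simp only [trl, Pi.add_apply, mul_add, add_mul, Finset.sum_add_distrib]

theorem trl_add2 {p m : ℕ} (s : Fin m → Fin m → Fin m → ZMod p) (a b b' c : Fin m → ZMod p) :
    trl s a (b + b') c = trl s a b c + trl s a b' c := by
  simp only [trl, Pi.add_apply, mul_add, add_mul, Finset.sum_add_distrib]

theorem trl_add3 {p m : ℕ} (s : Fin m → Fin m → Fin m → ZMod p) (a b c c' : Fin m → ZMod p) :
    trl s a b (c + c') = trl s a b c + trl s a b c' := by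
  simp only [trl, Pi.add_apply, mul_add, Finset.sum_add_distrib]

theorem trl_symm1 {p m : ℕ} (s : Fin m → Fin m → Fin m → ZMod p)
    (hs : ∀ i j k, s i j k = s j i k) (a b c : Fin m → ZMod p) :
    trl s a b c = trl s b a c := by
  unfold trl
  rw [Finset.sum_comm]
  refine Finset.sum_congr rfl fun i _ => Finset.sum_congr rfl fun j _ =>
    Finset.sum_congr rfl fun k _ => ?_
  rw [hs j i k]
  ring

theorem trl_symm2 {p m : ℕ} (s : Fin m → Fin m → Fin m → ZMod p)
    (hs : ∀ i j k, s i j k = s i k j) (a b c : Fin m → ZMod p) :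
    trl s a b c = trl s a c b := by
  unfold trl
  refine Finset.sum_congr rfl fun i _ => ?_
  rw [Finset.sum_comm]
  refine Finset.sum_congr rfl fun j _ => Finset.sum_congr rfl fun k _ => ?_
  rw [hs i k j]
  ring

theorem tco {p m : ℕ} (hp : p.Prime) (hp2 : p ≠ 2) (τ : Fin m → Fin m → Fin m → ZMod p)
    (h1 : ∀ i j k, τ j i k = -τ i j k) (h2 : ∀ i j k, τ i j k + τ j k i + τ k i j = 0) :
    ∃ t : (Fin m → ZMod p) → (Fin m → ZMod p) → ZMod p, (∀ c, t 0 c = 0) ∧ (∀ a, t a 0 = 0) ∧
      ∀ a b c, t b c + t a (b + c) - t (a + b) c - t a b =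
        2⁻¹ * ∑ i, ∑ j, ∑ k, τ i j k * a i * b j * c k := by
  have : Fact p.Prime := ⟨hp⟩
  have h2ne : (2 : ZMod p) ≠ 0 := by
    intro h
    have h3 : ((2 : ℕ) : ZMod p) = 0 := by exact_mod_cast h
    rw [ZMod.natCast_eq_zero_iff] at h3
    exact hp2 ((Nat.prime_dvd_prime_iff_eq hp Nat.prime_two).1 h3)
  obtain ⟨s, s', hs, hs', hst⟩ := tri hp hp2 τ h1 h2
  have h22 : (2 : ZMod p)⁻¹ * 2 = 1 := inv_mul_cancel₀ h2ne
  refine ⟨fun a c => -2⁻¹ * trl s a a c + 2⁻¹ * trl s' a c c, ?_, ?_, ?_⟩
  · intro c
    simp [trl]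
  · intro a
    simp [trl]
  · intro a b c
    have hR : 2⁻¹ * ∑ i, ∑ j, ∑ k, τ i j k * a i * b j * c k = trl s a b c + trl s' a b c := by
      unfold trl
      rw [Finset.mul_sum, ← Finset.sum_add_distrib]
      refine Finset.sum_congr rfl fun i _ => ?_
      rw [Finset.mul_sum, ← Finset.sum_add_distrib]
      refine Finset.sum_congr rfl fun j _ => ?_
      rw [Finset.mul_sum, ← Finset.sum_add_distrib]
      refine Finset.sum_congr rfl fun k _ => ?_
      rw [← mul_assoc, ← mul_assoc, ← mul_assoc, ← hst i j k]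
      ring
    rw [hR]
    simp only [trl_add1, trl_add2, trl_add3]
    have e1 := trl_symm1 s hs a b c
    have e2 := trl_symm2 s' hs' a b c
    linear_combination (trl s a b c + trl s' a b c) * h22 - 2⁻¹ * e1 - 2⁻¹ * e2

end H57.LOW
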