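import Pool.Agent.H57.LOW.Epa
import Pool.Agent.H57.LOW.Epb
import Pool.Agent.H57.BRA.Grp

/-!
# [H57 LOW EPC] the cocycle of R with given pairing V x U, 60-120 lines. File Pool/Agent/H57/LOW/Epc.lean

`Ψ : V → U → ZMod p` bilinear with the Jacobi relation. `e r r' = Ψ (vr r) (π r') + t (π r) (π r')` with `vr` from `vr_exists`, `t` from `tco` for
`τ i j k = Ψ (kV e_i e_j) e_k` (`e_i = Pi.single i 1`; `∑ τ i j k a_i b_j c_k = Ψ (kV a b) c` by linearity; `h1` from `kv_swap`, `h2` from `hJ`).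
Cocycle identity `e b c + e a (b c) = e (a b) c + e a b`: with `vr (a b) = vr a + vr b + 2⁻¹ kV (π a) (π b)` it is
`t b c + t a (b + c) - t (a + b) c - t a b = 2⁻¹ Ψ (kV a b) c` (writing `a` for `π a`). `e 1 a = 0`: `vr 1 = cv 1 = 0`, `t 0 c = 0`; `e a 1 = 0`: `t a 0 = 0`.
On `V × V`: `Ψ (..) 0 + t 0 0 = 0`. `iv e v r = e v r - e r v = Ψ (cv v) (π r) + t 0 (π r) - Ψ (vr r) 0 - t (π r) 0`.
-/

set_option autoImplicit false

noncomputable section

namespace H57.LOW

open H57.PC H57.BRA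

theorem epc_exp {p m : ℕ} (a : Fin m → ZMod p) :
    ∑ i, a i • (Pi.single i 1 : Fin m → ZMod p) = a := by
  funext k
  rw [Finset.sum_apply, Finset.sum_eq_single k]
  · simp
  · intro i _ hi
    simp [hi.symm]
  · intro h
    exact absurd (Finset.mem_univ k) h

theorem epc_sum {p m l : ℕ}
    (B : (Fin m → ZMod p) →ₗ[ZMod p] (Fin m → ZMod p) →ₗ[ZMod p] (Fin l → ZMod p))
    (Ψ : (Fin l → ZMod p) →ₗ[ZMod p] (Fin m → ZMod p) →ₗ[ZMod p] ZMod p)
    (a b c : Fin m → ZMod p) :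
    ∑ i, ∑ j, ∑ k, Ψ (B (Pi.single i 1) (Pi.single j 1)) (Pi.single k 1) * a i * b j * c k =
      Ψ (B a b) c := by
  have hc : ∀ v : Fin l → ZMod p,
      Ψ v c = ∑ k, c k * Ψ v (Pi.single k 1) := by
    intro v
    conv_lhs => rw [← epc_exp c]
    rw [map_sum]
    refine Finset.sum_congr rfl fun k _ => ?_
    rw [map_smul, smul_eq_mul]
  have hb : ∀ x : Fin m → ZMod p, B x b = ∑ j, b j • B x (Pi.single j 1) := by
    intro x
    conv_lhs => rw [← epc_exp b]
    rw [map_sum]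
    refine Finset.sum_congr rfl fun k _ => ?_
    rw [map_smul]
  have ha : B a b = ∑ i, a i • B (Pi.single i 1) b := by
    conv_lhs => rw [← epc_exp a]
    rw [map_sum, LinearMap.sum_apply]
    refine Finset.sum_congr rfl fun k _ => ?_
    rw [map_smul, LinearMap.smul_apply]
  rw [ha, map_sum, LinearMap.sum_apply]
  refine Finset.sum_congr rfl fun i _ => ?_
  rw [map_smul, LinearMap.smul_apply, hb, map_sum, LinearMap.sum_apply, Finset.smul_sum]
  refine Finset.sum_congr rfl fun j _ => ?_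
  rw [map_smul, LinearMap.smul_apply, hc, Finset.smul_sum, Finset.smul_sum]
  refine Finset.sum_congr rfl fun k _ => ?_
  simp only [smul_eq_mul]
  ring

theorem ep_exists {p m l w N : ℕ} {P R : Type} [Group P] [Group R] (hp : p.Prime) (hp2 : p ≠ 2)
    (Dg : GP p m l w N P R)
    (Ψ : (Fin l → ZMod p) →ₗ[ZMod p] (Fin m → ZMod p) →ₗ[ZMod p] ZMod p)
    (hJ : ∀ a b c, Ψ (Dg.kV a b) c + Ψ (Dg.kV b c) a + Ψ (Dg.kV c a) b = 0) :
    ∃ e : R → R → ZMod p, Coc p e ∧ (∀ v v', Dg.π v = 1 → Dg.π v' = 1 → e v v' = 0) ∧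
      ∀ v r, Dg.π v = 1 →
        iv e v r = Ψ (fun k => Dg.cv k v) (Multiplicative.toAdd (Dg.π r)) := by
  obtain ⟨vr, hv1, hv2⟩ := vr_exists hp hp2 Dg
  obtain ⟨t, ht1, ht2, ht3⟩ := tco hp hp2
    (fun i j k => Ψ (Dg.kV (Pi.single i 1) (Pi.single j 1)) (Pi.single k 1))
    (by
      intro i j k
      rw [kv_swap Dg (Pi.single j 1) (Pi.single i 1), map_neg, LinearMap.neg_apply])
    (by
      intro i j k
      exact hJ (Pi.single i 1) (Pi.single j 1) (Pi.single k 1))
  have ht4 : ∀ a b c, t b c + t a (b + c) - t (a + b) c - t a b = 2⁻¹ * Ψ (Dg.kV a b) c := by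
    intro a b c
    rw [ht3 a b c, epc_sum Dg.kV Ψ a b c]
  have hmul : ∀ r r', vr (r * r') = vr r + vr r' +
      (2⁻¹ : ZMod p) • Dg.kV (Multiplicative.toAdd (Dg.π r)) (Multiplicative.toAdd (Dg.π r')) := by
    intro r r'
    funext k
    rw [hv2 r r' k]
    rfl
  have h1cv : ∀ k, Dg.cv k 1 = 0 := by
    intro k
    have h := Dg.vadd k 1 1 (map_one _) (map_one _)
    rw [mul_one] at h
    exact left_eq_add.mp h
  have hvr : ∀ v, Dg.π v = 1 → vr v = fun k => Dg.cv k v := by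
    intro v hv
    funext k
    exact hv1 v hv k
  have hvr1 : vr 1 = 0 := by
    rw [hvr 1 (map_one _)]
    funext k
    exact h1cv k
  refine ⟨fun r r' => Ψ (vr r) (Multiplicative.toAdd (Dg.π r')) +
    t (Multiplicative.toAdd (Dg.π r)) (Multiplicative.toAdd (Dg.π r')), ⟨?_, ?_, ?_⟩, ?_, ?_⟩
  · intro a
    rw [hvr1, map_zero, LinearMap.zero_apply, map_one, toAdd_one, ht1, add_zero]
  · intro a
    rw [map_one, toAdd_one, map_zero, ht2, add_zero]
  · intro a b c
    have h := ht4 (Multiplicative.toAdd (Dg.π a)) (Multiplicative.toAdd (Dg.π b))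
      (Multiplicative.toAdd (Dg.π c))
    rw [hmul a b]
    simp only [map_mul, toAdd_mul, map_add, map_smul, LinearMap.add_apply, LinearMap.smul_apply,
      smul_eq_mul]
    linear_combination h
  · intro v v' hv hv'
    dsimp only
    rw [hv, hv', toAdd_one, map_zero, ht1, add_zero]
  · intro v r hv
    unfold iv
    dsimp only
    rw [hv, toAdd_one, map_zero, ht1, ht2, hvr v hv]
    ring

end H57.LOW
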