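import Pool.Agent.H57.LOW.Loa
import Pool.Agent.H57.BRA.Grp

/-!
# [H57 LOW LOB] local evaluation, 150-250 lines. File Pool/Agent/H57/LOW/Lob.lean

`e` a cocycle of `R` with `iv e v r = Ψ (cv v) (π r)` for `v ∈ V`, `Ψ v (s i) = dt (ψ i) v`, and `dt (ψ i) v = 0` whenever `β v (s i) = 0`.
* `cm_any`: `GP.cm r r'` is `cw` of the commutator of any lifts of `r`, `r'` (lifts differ by elements of `ker q`, which is central). `cm_conj`: invariant under conjugation if `r, r'` commute (then the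
  commutator of lifts is in `ker q`, central).
* `lob_theta`: for `i` there is `θ` with `dt θ (s i) = 0` and `iv e (q x) (q (g i)) = -dt θ (π (q x))` for all `x ∈ P` commuting with `g i`. The function `x ↦ iv e (q x) (q (g i))` on the centraliser of `g i`
  is additive (`iv_mul_left`), and vanishes if `π (q x) = 1` (then `cv (q x) = v` with `β v (s i) = cw [x, g i] = 0` by `Dg.hβ`, so `iv = Ψ v (s i) = dt (ψ i) v = 0`); so it is a linear form on the subspace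
  `Dg.C i` of `Fin m → ZMod p`, extend it (`LinearMap.exists_extend`) and write it as `dt (-θ)`. `dt θ (s i) = 0`: `x = g i`, `iv e r r = 0`.
* `lob_loc`: `r r' = r' r`, `r'` conjugate to `q (g i)`, `cm r r' ∈ Bi i`. Conjugate such that `r' = q (g i)` (`cm_conj`, `iv_conj`, `π` is invariant). Let `y` be a lift of `r`,
  `cw [y, g i] = cm r r' = β v (s i)`; `x1 ∈ P` with `π (q x1) = 1`, `cv (q x1) = v`; `x = y x1⁻¹` commutes with `g i` (commutators with `g i` of `y` and `x1` are central elements of `ker q` with the same `cw`; `winj`).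
  So `π r = π (q x) ∈ C i`, `r = q x * q x1`, `iv e r r' = -dt θ (π r) + Ψ v (s i)` and `xi (ψ i) i (cm r r') = dt (ψ i) v' ` for some `v'` with `β v' (s i) = β v (s i)`, so `= dt (ψ i) v = Ψ v (s i)`.
* `lob_mem`: for commuting `r, r'`, `r'` conjugate to `q (g i)`: `cm r r' ∈ Bi i ↔ π r ∈ C i` (`→` as above; `←`: `x` commuting with `g i` with `π (q x) = π r`, `r = q x * v`, `cm r r' = β (cv v) (s i)`).
* `lob_kv`: `π r ∈ C i` implies `kV (π r) (s i) = 0` (`q` of the commutator of `x` and `g i`).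
-/

set_option autoImplicit false

noncomputable section

namespace H57.LOW

open H57.PC H57.BRA H63.MA

variable {p m l w N : ℕ} {P R : Type} [Group P] [Group R]

theorem lob_dtlin {n : ℕ} (θ : Fin n → ZMod p) (a b : Fin n → ZMod p) :
    dt θ (a - b) = dt θ a - dt θ b := by
  simp only [dt, Pi.sub_apply, mul_sub, Finset.sum_sub_distrib]

theorem lob_cv1 (Dg : GP p m l w N P R) (k : Fin l) : Dg.cv k 1 = 0 := by
  have h := Dg.vadd k 1 1 (map_one _) (map_one _)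
  rw [mul_one] at h
  simpa using h

theorem lob_cw1 (Dg : GP p m l w N P R) (k : Fin w) : Dg.cw k 1 = 0 := by
  have h := Dg.wadd k 1 1 (map_one _) (map_one _)
  rw [mul_one] at h
  simpa using h

/-- central elements with the same coordinates are equal -/
theorem lob_weq (Dg : GP p m l w N P R) {a b : P} (ha : Dg.q a = 1) (hb : Dg.q b = 1)
    (h : ∀ k, Dg.cw k a = Dg.cw k b) : a = b := by
  have hab : Dg.q (a * b⁻¹) = 1 := by rw [map_mul, map_inv, ha, hb, inv_one, mul_one]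
  have h1 : a * b⁻¹ = 1 := by
    refine Dg.winj _ hab fun k => ?_
    have h2 := Dg.wadd k (a * b⁻¹) b hab hb
    rw [inv_mul_cancel_right, h k] at h2
    have h3 : Dg.cw k (a * b⁻¹) + Dg.cw k b = 0 + Dg.cw k b := by rw [zero_add]; exact h2.symm
    exact add_right_cancel h3
  exact mul_inv_eq_one.mp h1

theorem lob_comm_central (Dg : GP p m l w N P R) {u v : P} (hu : Dg.q u = 1) (hv : Dg.q v = 1)
    (x y : P) : u * x * (v * y) * (u * x)⁻¹ * (v * y)⁻¹ = x * y * x⁻¹ * y⁻¹ := by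
  have cu := Dg.wcen u hu
  have cv' := Dg.wcen v hv
  have hcu : ∀ z, Commute u z := cu
  have hcv : ∀ z, Commute v z := cv'
  rw [mul_inv_rev, mul_inv_rev]
  calc u * x * (v * y) * (x⁻¹ * u⁻¹) * (y⁻¹ * v⁻¹)
      = u * (x * v) * y * x⁻¹ * u⁻¹ * y⁻¹ * v⁻¹ := by simp only [mul_assoc]
    _ = u * (v * x) * y * x⁻¹ * u⁻¹ * y⁻¹ * v⁻¹ := by rw [(hcv x).eq]
    _ = u * (v * (x * y * x⁻¹)) * (u⁻¹ * y⁻¹) * v⁻¹ := by simp only [mul_assoc]
    _ = u * ((x * y * x⁻¹) * v) * (y⁻¹ * u⁻¹) * v⁻¹ := by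
        rw [(hcv (x * y * x⁻¹)).eq, ((hcu y⁻¹).inv_left).eq]
    _ = (u * (x * y * x⁻¹)) * (v * (y⁻¹ * u⁻¹)) * v⁻¹ := by simp only [mul_assoc]
    _ = ((x * y * x⁻¹) * u) * ((y⁻¹ * u⁻¹) * v) * v⁻¹ := by
        rw [(hcu (x * y * x⁻¹)).eq, (hcv (y⁻¹ * u⁻¹)).eq]
    _ = (x * y * x⁻¹) * (u * (y⁻¹ * u⁻¹)) := by simp only [mul_assoc, mul_inv_cancel, mul_one]
    _ = (x * y * x⁻¹) * ((y⁻¹ * u⁻¹) * u) := by rw [(hcu (y⁻¹ * u⁻¹)).eq]
    _ = x * y * x⁻¹ * y⁻¹ := by simp only [mul_assoc, inv_mul_cancel, mul_one]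

theorem cm_any (Dg : GP p m l w N P R) (x y : P) (k : Fin w) :
    Dg.cm (Dg.q x) (Dg.q y) k = Dg.cw k (x * y * x⁻¹ * y⁻¹) := by
  unfold GP.cm
  set X := Function.surjInv Dg.qs (Dg.q x) with hX
  set Y := Function.surjInv Dg.qs (Dg.q y) with hY
  have hqX : Dg.q X = Dg.q x := Function.surjInv_eq Dg.qs _
  have hqY : Dg.q Y = Dg.q y := Function.surjInv_eq Dg.qs _
  have hu : Dg.q (X * x⁻¹) = 1 := by rw [map_mul, map_inv, hqX, mul_inv_cancel]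
  have hv : Dg.q (Y * y⁻¹) = 1 := by rw [map_mul, map_inv, hqY, mul_inv_cancel]
  have h := lob_comm_central Dg hu hv x y
  rw [inv_mul_cancel_right, inv_mul_cancel_right] at h
  rw [h]

theorem cm_conj (Dg : GP p m l w N P R) {r r' : R} (h : r * r' = r' * r) (x : R) :
    Dg.cm (x * r * x⁻¹) (x * r' * x⁻¹) = Dg.cm r r' := by
  obtain ⟨X, rfl⟩ := Dg.qs x
  obtain ⟨a, rfl⟩ := Dg.qs r
  obtain ⟨b, rfl⟩ := Dg.qs r'
  funext k
  have h1 : Dg.q (a * b * a⁻¹ * b⁻¹) = 1 := by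
    rw [map_mul, map_mul, map_mul, map_inv, map_inv, h, mul_inv_cancel_right, mul_inv_cancel]
  rw [← map_mul, ← map_inv, ← map_mul, ← map_mul, ← map_mul, cm_any, cm_any]
  have h2 : X * a * X⁻¹ * (X * b * X⁻¹) * (X * a * X⁻¹)⁻¹ * (X * b * X⁻¹)⁻¹ =
      X * (a * b * a⁻¹ * b⁻¹) * X⁻¹ := by group
  rw [h2, ← Dg.wcen _ h1 X, mul_inv_cancel_right]

/-- the basic construction: an element `x` of the centraliser of `g i` -/
theorem lob_key (Dg : GP p m l w N P R) (i : Fin N) {y : P}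
    (h : Dg.q y * Dg.q (Dg.g i) = Dg.q (Dg.g i) * Dg.q y)
    {v : Fin l → ZMod p} (hv : Dg.β v (Dg.s i) = Dg.cm (Dg.q y) (Dg.q (Dg.g i))) :
    ∃ x1 : P, Dg.π (Dg.q x1) = 1 ∧ (∀ k, Dg.cv k (Dg.q x1) = v k) ∧
      (x1⁻¹ * y) * Dg.g i = Dg.g i * (x1⁻¹ * y) := by
  obtain ⟨v0, hv0, hv1⟩ := Dg.vsur v
  obtain ⟨x1, rfl⟩ := Dg.qs v0
  refine ⟨x1, hv0, hv1, ?_⟩
  have h1 : Dg.q (y * Dg.g i * y⁻¹ * (Dg.g i)⁻¹) = 1 := by
    rw [map_mul, map_mul, map_mul, map_inv, map_inv, h, mul_inv_cancel_right, mul_inv_cancel]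
  have h2 : Dg.q (x1 * Dg.g i * x1⁻¹ * (Dg.g i)⁻¹) = 1 := by
    rw [map_mul, map_mul, map_mul, map_inv, map_inv, Dg.vcen _ hv0, mul_inv_cancel_right,
      mul_inv_cancel]
  have h3 : y * Dg.g i * y⁻¹ * (Dg.g i)⁻¹ = x1 * Dg.g i * x1⁻¹ * (Dg.g i)⁻¹ := by
    refine lob_weq Dg h1 h2 fun k => ?_
    rw [← cm_any, ← hv, Dg.hβ _ _ _ hv0]
    have : (fun j => Dg.cv j (Dg.q x1)) = v := funext hv1
    rw [this]
    rfl
  have h4 : y * Dg.g i * y⁻¹ = x1 * Dg.g i * x1⁻¹ := mul_right_cancel h3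
  calc x1⁻¹ * y * Dg.g i = x1⁻¹ * (y * Dg.g i * y⁻¹) * y := by group
    _ = x1⁻¹ * (x1 * Dg.g i * x1⁻¹) * y := by rw [h4]
    _ = Dg.g i * (x1⁻¹ * y) := by group

/-- `iv` on the kernel of `π` -/
theorem lob_ker (Dg : GP p m l w N P R)
    {ψ : Fin N → Fin l → ZMod p} (hψ : InJ0 Dg ψ)
    {Ψ : (Fin l → ZMod p) →ₗ[ZMod p] (Fin m → ZMod p) →ₗ[ZMod p] ZMod p}
    (hΨ : ∀ i v, Ψ v (Dg.s i) = dt (ψ i) v) {e : R → R → ZMod p}
    (hiv : ∀ v r, Dg.π v = 1 →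
      iv e v r = Ψ (fun k => Dg.cv k v) (Multiplicative.toAdd (Dg.π r))) (i : Fin N)
    {x : P} (hx : x * Dg.g i = Dg.g i * x) (h1 : Dg.π (Dg.q x) = 1) :
    iv e (Dg.q x) (Dg.q (Dg.g i)) = 0 := by
  rw [hiv _ _ h1]
  change Ψ (fun k => Dg.cv k (Dg.q x)) (Dg.s i) = 0
  rw [hΨ]
  refine hψ.1 i _ ?_
  funext k
  have h2 := Dg.hβ x (Dg.g i) k h1
  rw [hx, mul_inv_cancel_right, mul_inv_cancel, lob_cw1] at h2
  exact h2.symm

theorem lob_theta [NeZero p] (hp : p.Prime) (Dg : GP p m l w N P R)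
    {ψ : Fin N → Fin l → ZMod p} (hψ : InJ0 Dg ψ)
    {Ψ : (Fin l → ZMod p) →ₗ[ZMod p] (Fin m → ZMod p) →ₗ[ZMod p] ZMod p}
    (hΨ : ∀ i v, Ψ v (Dg.s i) = dt (ψ i) v) {e : R → R → ZMod p} (he : Coc p e)
    (hiv : ∀ v r, Dg.π v = 1 →
      iv e v r = Ψ (fun k => Dg.cv k v) (Multiplicative.toAdd (Dg.π r))) (i : Fin N) :
    ∃ θ : Fin m → ZMod p, dt θ (Dg.s i) = 0 ∧ ∀ x : P, x * Dg.g i = Dg.g i * x →
      iv e (Dg.q x) (Dg.q (Dg.g i)) = -dt θ (Multiplicative.toAdd (Dg.π (Dg.q x))) := by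
  haveI : Fact p.Prime := ⟨hp⟩
  have qc : ∀ {x : P}, x * Dg.g i = Dg.g i * x →
      Dg.q x * Dg.q (Dg.g i) = Dg.q (Dg.g i) * Dg.q x := by
    intro x hx
    rw [← map_mul, hx, map_mul]
  have wd : ∀ x x' : P, x * Dg.g i = Dg.g i * x → x' * Dg.g i = Dg.g i * x' →
      Multiplicative.toAdd (Dg.π (Dg.q x)) = Multiplicative.toAdd (Dg.π (Dg.q x')) →
      iv e (Dg.q x) (Dg.q (Dg.g i)) = iv e (Dg.q x') (Dg.q (Dg.g i)) := by
    intro x x' hx hx' hπ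
    have hπ' : Dg.π (Dg.q x) = Dg.π (Dg.q x') := Multiplicative.toAdd.injective hπ
    have hz : (x * x'⁻¹) * Dg.g i = Dg.g i * (x * x'⁻¹) := by
      have c1 : Commute x (Dg.g i) := hx
      have c2 : Commute x' (Dg.g i) := hx'
      exact (c1.mul_left c2.inv_left).eq
    have hz1 : Dg.π (Dg.q (x * x'⁻¹)) = 1 := by
      rw [map_mul, map_mul, map_inv, map_inv, hπ', mul_inv_cancel]
    have h1 := lob_ker Dg hψ hΨ hiv i hz hz1
    have h2 : Dg.q x = Dg.q (x * x'⁻¹) * Dg.q x' := by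
      rw [← map_mul, inv_mul_cancel_right]
    rw [h2, iv_mul_left he (qc hz) (qc hx'), h1, zero_add]
  have hC : ∀ u : Dg.C i, ∃ x : P, x * Dg.g i = Dg.g i * x ∧
      Multiplicative.toAdd (Dg.π (Dg.q x)) = (u : Fin m → ZMod p) := fun u => u.2
  choose X hX1 hX2 using hC
  let f : Dg.C i →+ ZMod p := AddMonoidHom.mk' (fun u => iv e (Dg.q (X u)) (Dg.q (Dg.g i))) (by
    intro a b
    have hab : (X a * X b) * Dg.g i = Dg.g i * (X a * X b) := by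
      have c1 : Commute (X a) (Dg.g i) := hX1 a
      have c2 : Commute (X b) (Dg.g i) := hX1 b
      exact (c1.mul_left c2).eq
    rw [wd (X (a + b)) (X a * X b) (hX1 _) hab (by
      rw [hX2, map_mul, map_mul, toAdd_mul, hX2, hX2]
      rfl), map_mul, iv_mul_left he (qc (hX1 a)) (qc (hX1 b))])
  obtain ⟨g, hg⟩ := LinearMap.exists_extend (f.toZModLinearMap p)
  have hgv : ∀ x : P, x * Dg.g i = Dg.g i * x →
      g (Multiplicative.toAdd (Dg.π (Dg.q x))) = iv e (Dg.q x) (Dg.q (Dg.g i)) := by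
    intro x hx
    have hm : Multiplicative.toAdd (Dg.π (Dg.q x)) ∈ Dg.C i := ⟨x, hx, rfl⟩
    have h1 := LinearMap.congr_fun hg ⟨_, hm⟩
    have h2 : g (Multiplicative.toAdd (Dg.π (Dg.q x))) =
        iv e (Dg.q (X ⟨_, hm⟩)) (Dg.q (Dg.g i)) := h1
    rw [h2]
    exact wd _ _ (hX1 _) hx (hX2 _)
  have hgd : ∀ u : Fin m → ZMod p, -dt (fun k => -g (Pi.single k 1)) u = g u := by
    intro u
    have h1 : u = ∑ k, u k • (Pi.single k (1 : ZMod p) : Fin m → ZMod p) := by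
      funext j
      rw [Finset.sum_apply, Finset.sum_eq_single j]
      · simp
      · intro k _ hk
        simp [Ne.symm hk]
      · simp
    conv_rhs => rw [h1]
    rw [map_sum]
    simp only [dt, map_smul, smul_eq_mul, neg_mul, Finset.sum_neg_distrib, neg_neg]
    exact Finset.sum_congr rfl fun k _ => mul_comm _ _
  refine ⟨fun k => -g (Pi.single k 1), ?_, fun x hx => ?_⟩
  · have h1 := hgv (Dg.g i) rfl
    rw [← hgd] at h1
    have h2 : iv e (Dg.q (Dg.g i)) (Dg.q (Dg.g i)) = 0 := by rw [iv, sub_self]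
    rw [h2] at h1
    exact neg_eq_zero.mp h1
  · rw [hgd, hgv x hx]

theorem lob_red (Dg : GP p m l w N P R) (c r : R) :
    Dg.π (c * r * c⁻¹) = Dg.π r := by
  rw [map_mul, map_mul, map_inv, mul_comm (Dg.π c), mul_inv_cancel_right]

theorem lob_mem [NeZero p] (hp : p.Prime) (Dg : GP p m l w N P R) (i : Fin N) {r r' : R}
    (h : r * r' = r' * r) (hc : IsConj r' (Dg.q (Dg.g i))) :
    Dg.cm r r' ∈ Dg.Bi i ↔ Multiplicative.toAdd (Dg.π r) ∈ Dg.C i := by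
  obtain ⟨c, hc⟩ := isConj_iff.mp hc
  rw [← cm_conj Dg h c, ← lob_red Dg c r, hc]
  have h' : (c * r * c⁻¹) * Dg.q (Dg.g i) = Dg.q (Dg.g i) * (c * r * c⁻¹) := by
    rw [← hc]
    calc c * r * c⁻¹ * (c * r' * c⁻¹) = c * (r * r') * c⁻¹ := by group
      _ = c * (r' * r) * c⁻¹ := by rw [h]
      _ = c * r' * c⁻¹ * (c * r * c⁻¹) := by group
  obtain ⟨y, hy⟩ := Dg.qs (c * r * c⁻¹)
  rw [← hy] at h' ⊢
  constructor
  · rintro ⟨v, hv⟩
    obtain ⟨x1, h1, h2, h3⟩ := lob_key Dg i h' (v := v) hv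
    refine ⟨x1⁻¹ * y, h3, ?_⟩
    rw [map_mul, map_mul, map_inv, map_inv, h1, inv_one, one_mul]
  · rintro ⟨x, hx, hπ⟩
    have hπ' : Dg.π (Dg.q x) = Dg.π (Dg.q y) := Multiplicative.toAdd.injective hπ
    have h1 : Dg.π (Dg.q (y * x⁻¹)) = 1 := by
      rw [map_mul, map_mul, map_inv, map_inv, hπ', mul_inv_cancel]
    refine ⟨fun j => Dg.cv j (Dg.q (y * x⁻¹)), ?_⟩
    change Dg.β (fun j => Dg.cv j (Dg.q (y * x⁻¹))) (Dg.s i) = _
    funext k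
    have h2 := Dg.hβ (y * x⁻¹) (Dg.g i) k h1
    rw [cm_any]
    have h3 : y * Dg.g i * y⁻¹ * (Dg.g i)⁻¹ =
        (y * x⁻¹) * Dg.g i * (y * x⁻¹)⁻¹ * (Dg.g i)⁻¹ := by
      have c1 : Commute x (Dg.g i) := hx
      have h4 : x⁻¹ * Dg.g i * x = Dg.g i := by
        rw [c1.inv_left.eq, inv_mul_cancel_right]
      calc y * Dg.g i * y⁻¹ * (Dg.g i)⁻¹ = y * (x⁻¹ * Dg.g i * x) * y⁻¹ * (Dg.g i)⁻¹ := by
            rw [h4]
        _ = _ := by group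
    rw [h3, h2]
    rfl

theorem lob_loc [NeZero p] (hp : p.Prime) (Dg : GP p m l w N P R)
    {ψ : Fin N → Fin l → ZMod p} (hψ : InJ0 Dg ψ)
    {Ψ : (Fin l → ZMod p) →ₗ[ZMod p] (Fin m → ZMod p) →ₗ[ZMod p] ZMod p}
    (hΨ : ∀ i v, Ψ v (Dg.s i) = dt (ψ i) v) {e : R → R → ZMod p} (he : Coc p e)
    (hiv : ∀ v r, Dg.π v = 1 →
      iv e v r = Ψ (fun k => Dg.cv k v) (Multiplicative.toAdd (Dg.π r))) (i : Fin N)
    {θ : Fin m → ZMod p} (hθ : ∀ x : P, x * Dg.g i = Dg.g i * x →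
      iv e (Dg.q x) (Dg.q (Dg.g i)) = -dt θ (Multiplicative.toAdd (Dg.π (Dg.q x))))
    {r r' : R} (h : r * r' = r' * r) (hc : IsConj r' (Dg.q (Dg.g i)))
    (hm : Dg.cm r r' ∈ Dg.Bi i) :
    xi Dg (ψ i) i (Dg.cm r r') = iv e r r' + dt θ (Multiplicative.toAdd (Dg.π r)) := by
  obtain ⟨c, hc⟩ := isConj_iff.mp hc
  have h0 := iv_conj he h c
  rw [← cm_conj Dg h c, hc] at hm
  rw [← cm_conj Dg h c, ← lob_red Dg c r, ← h0, hc]
  have h' : (c * r * c⁻¹) * Dg.q (Dg.g i) = Dg.q (Dg.g i) * (c * r * c⁻¹) := by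
    rw [← hc]
    calc c * r * c⁻¹ * (c * r' * c⁻¹) = c * (r * r') * c⁻¹ := by group
      _ = c * (r' * r) * c⁻¹ := by rw [h]
      _ = c * r' * c⁻¹ * (c * r * c⁻¹) := by group
  obtain ⟨y, hy⟩ := Dg.qs (c * r * c⁻¹)
  rw [← hy] at h' hm ⊢
  obtain ⟨v, hv⟩ := hm
  have hv' : Dg.β v (Dg.s i) = Dg.cm (Dg.q y) (Dg.q (Dg.g i)) := hv
  obtain ⟨x1, h1, h2, h3⟩ := lob_key Dg i h' (v := v) hv'
  have hx : ∃ v, Dg.β v (Dg.s i) = Dg.cm (Dg.q y) (Dg.q (Dg.g i)) := ⟨v, hv'⟩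
  have e1 : xi Dg (ψ i) i (Dg.cm (Dg.q y) (Dg.q (Dg.g i))) = dt (ψ i) v := by
    rw [xi, dif_pos hx]
    have h4 : Dg.β (hx.choose - v) (Dg.s i) = 0 := by
      rw [map_sub, LinearMap.sub_apply, hx.choose_spec, hv', sub_self]
    have h5 := hψ.1 i _ h4
    rw [lob_dtlin] at h5
    exact sub_eq_zero.mp h5
  have h6 : Dg.q y = Dg.q x1 * Dg.q (x1⁻¹ * y) := by
    rw [← map_mul, mul_inv_cancel_left]
  have h7 : Dg.q (x1⁻¹ * y) * Dg.q (Dg.g i) = Dg.q (Dg.g i) * Dg.q (x1⁻¹ * y) := by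
    rw [← map_mul, h3, map_mul]
  have h8 : Dg.π (Dg.q (x1⁻¹ * y)) = Dg.π (Dg.q y) := by
    rw [map_mul, map_mul, map_inv, map_inv, h1, inv_one, one_mul]
  have e2 : iv e (Dg.q y) (Dg.q (Dg.g i)) =
      dt (ψ i) v + -dt θ (Multiplicative.toAdd (Dg.π (Dg.q y))) := by
    conv_lhs => rw [h6]
    rw [iv_mul_left he (Dg.vcen _ h1 _) h7, hθ _ h3, h8, hiv _ _ h1]
    have h9 : (fun k => Dg.cv k (Dg.q x1)) = v := funext h2
    rw [h9]
    change Ψ v (Dg.s i) + _ = _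
    rw [hΨ]
  rw [e1, e2, neg_add_cancel_right]

theorem lob_kv [NeZero p] (Dg : GP p m l w N P R) (i : Fin N) {u : Fin m → ZMod p}
    (h : u ∈ Dg.C i) : Dg.kV u (Dg.s i) = 0 := by
  obtain ⟨x, hx, rfl⟩ := h
  funext k
  have h1 := Dg.hk (Dg.q x) (Dg.q (Dg.g i)) k
  have h2 : Dg.q x * Dg.q (Dg.g i) = Dg.q (Dg.g i) * Dg.q x := by
    rw [← map_mul, hx, map_mul]
  rw [h2, mul_inv_cancel_right, mul_inv_cancel, lob_cv1] at h1
  exact h1.symm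

end H57.LOW
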