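import Pool.Agent.H57.PC.Def2

/-!
# [H57 LOW LOC] the weights, 80-140 lines. File Pool/Agent/H57/LOW/Loc.lean

`P` finite. `wn_card`: `#(class of q (g i) in R) * Wn i = #(Bi i) * #(ann0 (C i))`.
* Left side: the class of `g i` in `P` maps onto the class of `q (g i)`, all fibres have the cardinality `Wn i` (conjugation by a lift maps the fibre over `q (g i)` to the fibre over
  a conjugate; `Wn i` = `Nat.card {x : P // IsConj x (g i) ∧ q x = q (g i)}`). So the left side is `#(class of g i in P) = #P / #Z`, `Z` the centraliser of `g i` (`MulAction.card_orbit_mul_card_stabilizer_eq_card_group`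
  for `ConjAct`, or count directly: the map `x ↦ x (g i) x⁻¹` has fibres the cosets of `Z`).
* Right side: let `G2 = ker (π ∘ q)`; `x ↦ β (cv (q x)) (s i)`, `G2 → Bi i` is a surjective homomorphism (`vsur`, `qs`), its kernel is `Z ∩ G2` (`cw [x, g i] = β (cv (q x)) (s i)` by `hβ`, `[x, g i] ∈ ker q`,
  `winj`): `#G2 = #(Bi i) * #(Z ∩ G2)`. `π ∘ q : Z → C i` is surjective with kernel `Z ∩ G2`: `#Z = #(C i) * #(Z ∩ G2)`. `#P = #G2 * p ^ m`. `#(ann0 (C i)) * #(C i) = p ^ m` (the pairing `dt` is perfect: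
  `ann0 C` is the orthogonal complement for the bilinear form `dt`; e.g. `ann0 C ≃ Module.Dual ((Fin m → ZMod p) ⧸ C)`, or `LinearMap.BilinForm.finrank_orthogonal`, `Submodule.card_quotient_mul_card`,
  `Module.card_eq_pow_finrank`). So `#P / #Z = #G2 p ^ m / (#(C i) #(Z ∩ G2)) = #(Bi i) #(ann0 (C i))`.
-/

set_option autoImplicit false

noncomputable section

namespace H57.LOW

open H57.PC H63.MA

variable {p m l w N : ℕ} {P R : Type} [Group P] [Group R]

theorem loc_fib {A B : Type} [Finite A] (f : A → B) (n : ℕ)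
    (hf : ∀ b, Nat.card {a // f a = b} = n) : Nat.card A = Nat.card B * n := by
  classical
  rcases Nat.eq_zero_or_pos n with h0 | h0
  · subst h0
    rw [Nat.mul_zero]
    rw [Nat.card_eq_zero]
    left
    refine ⟨fun a => ?_⟩
    have h1 := hf (f a)
    rw [Nat.card_eq_zero] at h1
    rcases h1 with h1 | h1
    · exact h1.elim ⟨a, rfl⟩
    · exact h1.not_finite inferInstance
  · have hs : Function.Surjective f := by
      intro b
      have h1 := hf b
      have h2 : Nonempty {a // f a = b} := by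
        by_contra h3
        rw [not_nonempty_iff] at h3
        rw [Nat.card_of_isEmpty] at h1
        omega
      obtain ⟨⟨a, ha⟩⟩ := h2
      exact ⟨a, ha⟩
    have : Finite B := Finite.of_surjective f hs
    have : Fintype B := Fintype.ofFinite B
    rw [← Nat.card_congr (Equiv.sigmaFiberEquiv f), Nat.card_sigma]
    rw [Finset.sum_congr rfl fun b _ => hf b, Finset.sum_const, Finset.card_univ,
      Nat.card_eq_fintype_card, smul_eq_mul]

theorem loc_hom {A B : Type} [Group A] [Group B] (f : A →* B) (hf : Function.Surjective f) :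
    Nat.card A = Nat.card B * Nat.card f.ker := by
  rw [Subgroup.card_eq_card_quotient_mul_card_subgroup f.ker,
    Nat.card_congr (QuotientGroup.quotientKerEquivOfSurjective f hf).toEquiv]

theorem ann_card (hp : p.Prime) (C : Submodule (ZMod p) (Fin m → ZMod p)) :
    Nat.card (ann0 C) * Nat.card C = p ^ m := by
  have : Fact p.Prime := ⟨hp⟩
  set B : LinearMap.BilinForm (ZMod p) (Fin m → ZMod p) :=
    Matrix.toBilin' (1 : Matrix (Fin m) (Fin m) (ZMod p)) with hB
  have hBa : ∀ x y, B x y = dt y x := by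
    intro x y
    rw [hB, Matrix.toBilin'_apply', Matrix.one_mulVec]
    simp only [dotProduct, dt]
    exact Finset.sum_congr rfl fun k _ => mul_comm _ _
  have hnd : B.Nondegenerate := by
    rw [hB]
    exact Matrix.Nondegenerate.toBilin' (Matrix.nondegenerate_of_det_ne_zero (by simp))
  have hr : B.IsRefl := by
    intro x y h
    rw [hBa] at h ⊢
    rw [← h]
    simp only [dt]
    exact Finset.sum_congr rfl fun k _ => mul_comm _ _
  have he : ann0 C = B.orthogonal C := by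
    ext θ
    constructor
    · intro h u hu
      show B u θ = 0
      rw [hBa]
      exact h u hu
    · intro h u hu
      have h1 : B u θ = 0 := h u hu
      rw [hBa] at h1
      exact h1
  have h1 := LinearMap.BilinForm.finrank_orthogonal hnd C
  have h2 : Module.finrank (ZMod p) C ≤ Module.finrank (ZMod p) (Fin m → ZMod p) :=
    Submodule.finrank_le C
  rw [Module.finrank_fin_fun] at h1 h2
  rw [he, Module.natCard_eq_pow_finrank (K := ZMod p), Module.natCard_eq_pow_finrank (K := ZMod p)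
    (V := C), h1, Nat.card_zmod, ← pow_add]
  congr 1
  omega

theorem loc_cls [Finite P] (Dg : GP p m l w N P R) (i : Fin N) :
    Nat.card {x : P // IsConj x (Dg.g i)} =
      Nat.card {r : R // IsConj r (Dg.q (Dg.g i))} * Dg.Wn i := by
  refine loc_fib (fun x => ⟨Dg.q x.1, MonoidHom.map_isConj Dg.q x.2⟩) _ ?_
  rintro ⟨r, hr⟩
  obtain ⟨u, hu⟩ := isConj_iff.1 hr
  obtain ⟨y, rfl⟩ := Dg.qs u
  have hr2 : r = (Dg.q y)⁻¹ * Dg.q (Dg.g i) * Dg.q y := by
    rw [← hu]; group
  refine Nat.card_congr ⟨fun x => ⟨y * x.1.1 * y⁻¹, ?_, ?_⟩, fun x => ⟨⟨y⁻¹ * x.1 * y, ?_⟩, ?_⟩,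
    ?_, ?_⟩
  · have h1 := x.1.2
    refine IsConj.trans ?_ h1
    exact (isConj_iff.2 ⟨y, rfl⟩).symm
  · have h2 : Dg.q x.1.1 = r := congrArg Subtype.val x.2
    rw [map_mul, map_mul, map_inv, h2, hu]
  · have h1 := x.2.1
    refine IsConj.trans ?_ h1
    exact (isConj_iff.2 ⟨y, by group⟩)
  · apply Subtype.ext
    show Dg.q (y⁻¹ * x.1 * y) = r
    rw [map_mul, map_mul, map_inv, x.2.2, hr2]
  · intro x
    apply Subtype.ext
    apply Subtype.ext
    show y⁻¹ * (y * x.1.1 * y⁻¹) * y = x.1.1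
    group
  · intro x
    apply Subtype.ext
    show y * (y⁻¹ * x.1 * y) * y⁻¹ = x.1
    group

theorem loc_orb [Finite P] (G : P) :
    Nat.card P = Nat.card {x : P // IsConj x G} * Nat.card {x : P // x * G = G * x} := by
  refine loc_fib (fun x => ⟨x * G * x⁻¹, (isConj_iff.2 ⟨x, rfl⟩).symm⟩) _ ?_
  rintro ⟨z, hz⟩
  obtain ⟨c, hc⟩ := isConj_iff.1 hz.symm
  refine Nat.card_congr ⟨fun x => ⟨c⁻¹ * x.1, ?_⟩, fun x => ⟨c * x.1, ?_⟩, ?_, ?_⟩
  · have h0 : x.1 * G * x.1⁻¹ = z := congrArg Subtype.val x.2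
    have h1 : x.1 * G * x.1⁻¹ = c * G * c⁻¹ := h0.trans hc.symm
    have h2 : x.1 * G = c * G * c⁻¹ * x.1 := by
      rw [← h1]; group
    rw [mul_assoc, h2]; group
  · apply Subtype.ext
    show c * x.1 * G * (c * x.1)⁻¹ = z
    rw [← hc, mul_assoc c, x.2]; group
  · intro x
    apply Subtype.ext
    show c * (c⁻¹ * x.1) = x.1
    group
  · intro x
    apply Subtype.ext
    show c⁻¹ * (c * x.1) = x.1
    group

theorem loc_cw1 (Dg : GP p m l w N P R) (k : Fin w) : Dg.cw k 1 = 0 := by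
  have h := Dg.wadd k 1 1 (map_one _) (map_one _)
  rw [mul_one] at h
  exact left_eq_add.1 h

theorem loc_com (Dg : GP p m l w N P R) (i : Fin N) (x : P) (hx : Dg.π (Dg.q x) = 1) :
    Dg.β (fun j => Dg.cv j (Dg.q x)) (Dg.s i) = 0 ↔ x * Dg.g i = Dg.g i * x := by
  have hb : ∀ k, Dg.cw k (x * Dg.g i * x⁻¹ * (Dg.g i)⁻¹) =
      Dg.β (fun j => Dg.cv j (Dg.q x)) (Dg.s i) k := fun k => Dg.hβ x (Dg.g i) k hx
  constructor
  · intro h
    have h1 : Dg.q (x * Dg.g i * x⁻¹ * (Dg.g i)⁻¹) = 1 := by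
      have h2 := Dg.vcen (Dg.q x) hx (Dg.q (Dg.g i))
      rw [map_mul, map_mul, map_mul, map_inv, map_inv, h2]; group
    have h3 := Dg.winj _ h1 fun k => by rw [hb k, h]; rfl
    have h4 := mul_inv_eq_one.1 h3
    exact (mul_inv_eq_iff_eq_mul.1 h4)
  · intro h
    funext k
    rw [← hb k, h]
    rw [show Dg.g i * x * x⁻¹ * (Dg.g i)⁻¹ = 1 by group, loc_cw1]
    rfl

/-- the homomorphism to `Bi i` -/
def locF (Dg : GP p m l w N P R) (i : Fin N) :
    (Dg.π.comp Dg.q).ker →* Multiplicative (Dg.Bi i) :=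
  MonoidHom.mk' (fun x => Multiplicative.ofAdd ⟨Dg.β (fun j => Dg.cv j (Dg.q x.1)) (Dg.s i),
    ⟨_, rfl⟩⟩) (by
    rintro ⟨x, hx⟩ ⟨y, hy⟩
    have hx' : Dg.π (Dg.q x) = 1 := hx
    have hy' : Dg.π (Dg.q y) = 1 := hy
    have h1 : (fun j => Dg.cv j (Dg.q (x * y))) =
        (fun j => Dg.cv j (Dg.q x)) + fun j => Dg.cv j (Dg.q y) := by
      funext j
      rw [map_mul]
      exact Dg.vadd j _ _ hx' hy'
    rw [← ofAdd_add]
    congr 1
    apply Subtype.ext
    show Dg.β (fun j => Dg.cv j (Dg.q (x * y))) (Dg.s i) =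
      Dg.β (fun j => Dg.cv j (Dg.q x)) (Dg.s i) + Dg.β (fun j => Dg.cv j (Dg.q y)) (Dg.s i)
    rw [h1, map_add, LinearMap.add_apply])

/-- the centraliser -/
def locZ (G : P) : Subgroup P where
  carrier := {x | x * G = G * x}
  mul_mem' := by
    intro a b ha hb
    show a * b * G = G * (a * b)
    have ha' : a * G = G * a := ha
    have hb' : b * G = G * b := hb
    rw [mul_assoc, hb', ← mul_assoc, ha', mul_assoc]
  one_mem' := by
    show 1 * G = G * 1
    rw [one_mul, mul_one]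
  inv_mem' := by
    intro a ha
    have ha' : a * G = G * a := ha
    show a⁻¹ * G = G * a⁻¹
    rw [inv_mul_eq_iff_eq_mul, ← mul_assoc, ha', mul_inv_cancel_right]

/-- the homomorphism to `C i` -/
def locC [NeZero p] (Dg : GP p m l w N P R) (i : Fin N) :
    locZ (Dg.g i) →* Multiplicative (Dg.C i) :=
  MonoidHom.mk' (fun x => Multiplicative.ofAdd ⟨Multiplicative.toAdd (Dg.π (Dg.q x.1)),
    ⟨x.1, x.2, rfl⟩⟩) (by
    rintro ⟨x, hx⟩ ⟨y, hy⟩
    rw [← ofAdd_add]
    congr 1
    apply Subtype.ext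
    show Multiplicative.toAdd (Dg.π (Dg.q (x * y))) =
      Multiplicative.toAdd (Dg.π (Dg.q x)) + Multiplicative.toAdd (Dg.π (Dg.q y))
    rw [map_mul, map_mul, toAdd_mul])

theorem locF_surj (Dg : GP p m l w N P R) (i : Fin N) : Function.Surjective (locF Dg i) := by
  intro c
  obtain ⟨⟨c, v, hv⟩, rfl⟩ := Multiplicative.ofAdd.surjective c
  obtain ⟨r, hr1, hr2⟩ := Dg.vsur v
  obtain ⟨x, rfl⟩ := Dg.qs r
  refine ⟨⟨x, hr1⟩, ?_⟩
  show Multiplicative.ofAdd _ = Multiplicative.ofAdd _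
  congr 1
  apply Subtype.ext
  show Dg.β (fun j => Dg.cv j (Dg.q x)) (Dg.s i) = c
  rw [show (fun j => Dg.cv j (Dg.q x)) = v from funext hr2]
  exact hv

theorem locC_surj [NeZero p] (Dg : GP p m l w N P R) (i : Fin N) :
    Function.Surjective (locC Dg i) := by
  intro c
  obtain ⟨⟨c, x, hx, hc⟩, rfl⟩ := Multiplicative.ofAdd.surjective c
  refine ⟨⟨x, hx⟩, ?_⟩
  show Multiplicative.ofAdd _ = Multiplicative.ofAdd _
  congr 1
  exact Subtype.ext hc

theorem loc_ker [NeZero p] (Dg : GP p m l w N P R) (i : Fin N) :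
    Nat.card (locF Dg i).ker = Nat.card (locC Dg i).ker := by
  have hF : ∀ x : (Dg.π.comp Dg.q).ker, x ∈ (locF Dg i).ker ↔ x.1 * Dg.g i = Dg.g i * x.1 := by
    intro x
    rw [← loc_com Dg i x.1 x.2]
    constructor
    · intro h
      have h1 : locF Dg i x = 1 := h
      have h2 := congrArg (fun c : Multiplicative (Dg.Bi i) => (Multiplicative.toAdd c).1) h1
      exact h2
    · intro h
      show locF Dg i x = 1
      show Multiplicative.ofAdd _ = Multiplicative.ofAdd _
      congr 1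
      exact Subtype.ext h
  have hC : ∀ x : locZ (Dg.g i), x ∈ (locC Dg i).ker ↔ Dg.π (Dg.q x.1) = 1 := by
    intro x
    constructor
    · intro h
      have h1 : locC Dg i x = 1 := h
      have h2 := congrArg (fun c : Multiplicative (Dg.C i) => (Multiplicative.toAdd c).1) h1
      have h3 : Multiplicative.toAdd (Dg.π (Dg.q x.1)) = 0 := h2
      exact Multiplicative.toAdd.injective h3
    · intro h
      show locC Dg i x = 1
      show Multiplicative.ofAdd _ = Multiplicative.ofAdd _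
      congr 1
      apply Subtype.ext
      show Multiplicative.toAdd (Dg.π (Dg.q x.1)) = 0
      rw [h]
      rfl
  exact Nat.card_congr ⟨fun x => ⟨⟨x.1.1, (hF x.1).1 x.2⟩, (hC _).2 x.1.2⟩,
    fun x => ⟨⟨x.1.1, (hC x.1).1 x.2⟩, (hF _).2 x.1.2⟩, fun _ => rfl, fun _ => rfl⟩

theorem wn_card [NeZero p] [Finite P] (hp : p.Prime) (Dg : GP p m l w N P R) (i : Fin N) :
    Nat.card {r : R // IsConj r (Dg.q (Dg.g i))} * Dg.Wn i =
      Nat.card (Dg.Bi i) * Nat.card (ann0 (Dg.C i)) := by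
  have : Fact p.Prime := ⟨hp⟩
  rw [← loc_cls]
  have h1 := loc_orb (Dg.g i)
  have h2 : Nat.card P = p ^ m * Nat.card (Dg.π.comp Dg.q).ker := by
    rw [loc_hom (Dg.π.comp Dg.q) (Dg.πs.comp Dg.qs)]
    congr 1
    rw [show Nat.card (Multiplicative (Fin m → ZMod p)) = Nat.card (Fin m → ZMod p) from rfl]
    rw [Nat.card_fun, Nat.card_zmod, Nat.card_eq_fintype_card, Fintype.card_fin]
  have h3 := loc_hom (locF Dg i) (locF_surj Dg i)
  have h4 := loc_hom (locC Dg i) (locC_surj Dg i)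
  have h5 := ann_card hp (Dg.C i)
  have h6 : Nat.card {x : P // x * Dg.g i = Dg.g i * x} = Nat.card (locZ (Dg.g i)) := rfl
  have h7 : Nat.card (Multiplicative (Dg.Bi i)) = Nat.card (Dg.Bi i) := rfl
  have h8 : Nat.card (Multiplicative (Dg.C i)) = Nat.card (Dg.C i) := rfl
  rw [h7] at h3
  rw [h8, ← loc_ker] at h4
  have h9 : 0 < Nat.card (locZ (Dg.g i)) := Nat.card_pos
  refine Nat.eq_of_mul_eq_mul_right h9 ?_
  rw [← h6, ← h1, h2, h3, h6, h4, ← h5]
  ring

end H57.LOW
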