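import Pool.Agent.H57.LOW.Epc
import Pool.Agent.H57.LOW.Lob
import Pool.Agent.H57.BRA.BR

/-!
# [H57 LOW LOD] the global phase, 150-250 lines. File Pool/Agent/H57/LOW/Lod.lean

`p` odd, `K` contains the roots of unity of order `p ^ 2`, `f` disjoint families of good primes with trivial classes `qf D (f i) = 0`, `ρ ∈ RH L Dg 1 ∅ 1 f`.
* `ak_ps`: `akR D Dg.cr (fun _ => 1) f k` is `PS` (locally a `p`-th power at `S0`): `D.prim_of` for `m v = ∑ i, if v ∈ f i then (s i k).val else 0` (a finitely supported function, zero on `S0` because the good primes are outside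
  `S0`); `∑ v, m v • q v = ∑ i, s i k • qf D (f i) = 0`. (The product over `m` is the product in `akR` by disjointness or by additivity: write `m` as a sum over `i` and `w ∈ f i` of `Finsupp.single w (s i k).val` and use
  `Finsupp.prod_add_index'`, `Finsupp.prod_finset_sum_index`, similarly for `Finsupp.sum`.) Perhaps a lemma of this kind is in Pool/Agent/H38/BG or H63/MA (search `prim_of`).
* `rh_F`: `ρ (F v)`, `ρ (t v)` commute for typed `v` (`Fr.com`), and `toAdd (π (ρ (F v))) k = LL v (akR .. k)` (`Fr.kf`, second condition of `RH`).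
* `lo_phase`: for `ψ ∈ J0` there are `θ i` (depending only on `ψ`) with `dt (θ i) (s i) = 0`, such that for all these `f`, `ρ` with `cq ρ v ∈ Bi i` at all typed `v`:
  `∑ i, ∑ v ∈ f i, xi (ψ i) i (cq ρ v) = ∑ i, ∑ v ∈ f i, dt (θ i) (LL v (akR ..))`.
  Proof: `Ψ` from `psi_lin`, `e` from `ep_exists`, `θ i` from `lob_theta`. `lob_loc` at every typed prime (`ρ (t v)` is conjugate to `q (g i)`): the left side is `∑ iv e (ρ (F v)) (ρ (t v)) + ∑ dt (θ i) (π (ρ (F v)))`. The first sum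
  is `0` by `br2` for `T = ⋃ f i` (the double sum over the disjoint `f i` is the sum over `T`, `Finset.sum_biUnion`), `c = akR .. ` (`Fin m → Kˣ`), `Kl (pb e ρ) (Zk c)` with `l = 0`: for `σ ∈ Zk c` all `kk (c k) σ = 0`, so
  `π (ρ σ) = 1`, and `e = 0` on `V × V`. `htm`: on `inr L v`, `v` typed: `ρ τ ^ p = 1` (third condition of `RH`), otherwise `ρ τ = 1`. `hur`: `t v ∈ inr L v` (`(L.ld v hv).ht`, `dif_pos`). `hnp`: good primes have prime norm.
  `MOne p K` from `mone_odd` (`H63.MA.mone_odd`). `R` is finite because `P` is and `q` is surjective.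
-/

set_option autoImplicit false

open scoped NumberField
open IsDedekindDomain
open scoped Classical

noncomputable section

namespace H57.LOW

open H57.PC H57.BRA H63.MA H38.BB H38.BG

variable {K : Type} [Field K] [NumberField K] {p : ℕ} {ζ : K} {Ω : Type}
  [Field Ω] [Algebra K Ω] [IsAlgClosure K Ω] {m l w N : ℕ} {P R : Type} [Group P] [Group R]

theorem ak_ps [NeZero p] (hp : p.Prime) (D : RD0 K p ζ) (c : CR p m N)
    (f : Fin N → Finset (Pl K)) (hg : ∀ i, ∀ v ∈ f i, D.Gd v) (hq : ∀ i, qf D (f i) = 0)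
    (k : Fin m) : PS p ζ D.S0 (akR D c (fun _ => 1) f k) := by
  have hS : ∀ i, ∀ v ∈ f i, v ∉ D.S0 := fun i v hv => (hg i v hv).1
  have hz : ∀ v ∈ D.S0,
      (∑ i, Finsupp.indicator (f i) fun _ _ => ((c.x i k).val : ℤ)) v = 0 := by
    intro v hv
    rw [Finsupp.finsetSum_apply]
    refine Finset.sum_eq_zero fun i _ => ?_
    rw [Finsupp.indicator_of_notMem]
    intro h1
    exact hS i v h1 hv
  have hsum : ((∑ i, Finsupp.indicator (f i) fun _ _ => ((c.x i k).val : ℤ)).sum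
      fun v n => (n : ZMod p) • D.q v) = 0 := by
    rw [← Finsupp.sum_finsetSum_index (h := fun v (n : ℤ) => (n : ZMod p) • D.q v)
      (fun v => by rw [Int.cast_zero, zero_smul]) (fun v a b => by rw [Int.cast_add, add_smul])]
    refine Finset.sum_eq_zero fun i _ => ?_
    rw [Finsupp.sum_of_support_subset _ (Finsupp.support_indicator_subset _ _) _ (by
      intro v _
      rw [Int.cast_zero, zero_smul])]
    have h1 : ∀ v ∈ f i, ((Finsupp.indicator (f i) (fun _ _ => ((c.x i k).val : ℤ)) v : ℤ) :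
        ZMod p) • D.q v = (((c.x i k).val : ℕ) : ZMod p) • D.q v := by
      intro v hv
      rw [Finsupp.indicator_of_mem hv, Int.cast_natCast]
    rw [Finset.sum_congr rfl h1, ← Finset.smul_sum]
    have h2 := hq i
    unfold qf at h2
    rw [h2, smul_zero]
  have h := D.prim_of _ hz hsum
  rw [← Finsupp.prod_finsetSum_index (h := fun v (n : ℤ) => D.pi v ^ n)
    (fun v => zpow_zero _) (fun v a b => zpow_add _ _ _)] at h
  have h3 : (∏ i, (Finsupp.indicator (f i) fun _ _ => ((c.x i k).val : ℤ)).prod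
      fun v (n : ℤ) => D.pi v ^ n) = akR D c (fun _ => 1) f k := by
    unfold akR
    rw [one_mul]
    refine Finset.prod_congr rfl fun i _ => ?_
    rw [Finsupp.prod_of_support_subset _ (Finsupp.support_indicator_subset _ _) _ (by
      intro v _
      rw [zpow_zero])]
    refine Finset.prod_congr rfl fun v hv => ?_
    rw [Finsupp.indicator_of_mem hv, zpow_natCast]
  rwa [h3] at h

theorem rh_F [NeZero p] {D : RD0 K p ζ} {L : LDs D Ω} (Dg : GP p m l w N P R) [Finite R]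
    (Fr : FR L) {b : Fin m → Kˣ} {E : Finset (Pl K)} {ε : Pl K → Gal(Ω/K) → R}
    {f : Fin N → Finset (Pl K)} (hg : ∀ i, ∀ v ∈ f i, D.Gd v) {ρ : Gal(Ω/K) →* R}
    (hρ : ρ ∈ RH L Dg b E ε f) {i : Fin N} {v : Pl K} (hv : v ∈ f i) :
    ρ (Fr.F v) * ρ (L.t v) = ρ (L.t v) * ρ (Fr.F v) ∧ IsConj (ρ (L.t v)) (Dg.q (Dg.g i)) ∧
      Multiplicative.toAdd (Dg.π (ρ (Fr.F v))) = fun k => D.LL v (akR D Dg.cr b f k) := by
  obtain ⟨h1, h2, h3, -, -⟩ := hρ
  have hS := (hg i v hv).1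
  refine ⟨Fr.com v hS R ρ h1 (h3 i v hv).2, (h3 i v hv).1, ?_⟩
  funext k
  rw [← h2, Fr.kf v hS]

theorem lo_phase [NeZero p] [Finite P] (hp : p.Prime) (hp2 : p ≠ 2) (hζ : IsPrimitiveRoot ζ p)
    (hz : Z2 p K) {D : RD0 K p ζ} {L : LDs D Ω} (Dg : GP p m l w N P R) (Fr : FR L)
    (ψ : Fin N → Fin l → ZMod p) (hψ : InJ0 Dg ψ) :
    ∃ θ : Fin N → Fin m → ZMod p, (∀ i, dt (θ i) (Dg.s i) = 0) ∧ (ψ = 0 → θ = 0) ∧
      ∀ f : Fin N → Finset (Pl K), Dj f → (∀ i, ∀ v ∈ f i, D.Gd v) → (∀ i, qf D (f i) = 0) →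
      ∀ ρ ∈ RH L Dg (fun _ => 1) ∅ (fun _ _ => 1) f,
      (∀ i, ∀ v ∈ f i, cq Dg Fr ρ v ∈ Dg.Bi i) →
      ∑ i, ∑ v ∈ f i, xi Dg (ψ i) i (cq Dg Fr ρ v) =
        ∑ i, ∑ v ∈ f i, dt (θ i) (fun k => D.LL v (akR D Dg.cr (fun _ => 1) f k)) := by
  have hR : Finite R := Finite.of_surjective Dg.q Dg.qs
  by_cases h0 : ψ = 0
  · refine ⟨0, fun i => by simp [dt], fun _ => rfl, ?_⟩
    intro f _ _ _ ρ _ _
    refine Finset.sum_congr rfl fun i _ => Finset.sum_congr rfl fun v _ => ?_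
    rw [h0]
    unfold xi
    split_ifs <;> simp [dt]
  obtain ⟨Ψ, hΨ, hJ⟩ := psi_lin hp Dg ψ hψ
  obtain ⟨e, he, hev, hiv⟩ := ep_exists hp hp2 Dg Ψ hJ
  choose θ hθ0 hθ using fun i => lob_theta hp Dg hψ hΨ he hiv i
  refine ⟨θ, hθ0, fun h => absurd h h0, ?_⟩
  intro f hdj hg hq ρ hρ hcq
  have hloc : ∀ i, ∀ v ∈ f i, xi Dg (ψ i) i (cq Dg Fr ρ v) =
      iv e (ρ (Fr.F v)) (ρ (L.t v)) +
        dt (θ i) (fun k => D.LL v (akR D Dg.cr (fun _ => 1) f k)) := by
    intro i v hv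
    obtain ⟨h1, h2, h3⟩ := rh_F Dg Fr hg hρ hv
    have h4 := lob_loc hp Dg hψ hΨ he hiv i (hθ i) h1 h2 (hcq i v hv)
    rw [h3] at h4
    exact h4
  have hS : ∀ i, ∀ v ∈ f i, v ∉ D.S0 := fun i v hv => (hg i v hv).1
  obtain ⟨hr1, hr2, hr3, hr4, hr5⟩ := hρ
  have hk : Kl (pb e ρ) (Zk p ζ fun k => akR D Dg.cr (fun _ => 1) f k) := by
    have hπ : ∀ σ ∈ Zk p ζ (fun k => akR D Dg.cr (fun _ => 1) f k), Dg.π (ρ σ) = 1 := by
      intro σ hσ
      apply Multiplicative.toAdd.injective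
      rw [toAdd_one]
      funext k
      rw [← hr2 σ k]
      exact hσ k
    refine ⟨fun _ => 0, ⟨⊥, inferInstance, fun _ _ _ => rfl⟩, ?_⟩
    intro σ hσ τ hτ
    change (0 : ZMod p) = 0 + 0 + e (ρ σ) (ρ τ)
    rw [hev _ _ (hπ σ hσ) (hπ τ hτ), add_zero, add_zero]
  have hiv0 : ∑ v ∈ Finset.univ.biUnion f, iv e (ρ (Fr.F v)) (ρ (L.t v)) = 0 := by
    refine br2 hp (mone_odd hp hp2 K) hζ hz Fr he hr1 _ (fun k => ak_ps hp D Dg.cr f hg hq k) hk
      ?_ _ ?_ ?_ ?_
    · intro v hv τ hτ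
      by_cases h : ∃ i, v ∈ f i
      · obtain ⟨i, hi⟩ := h
        exact (hr3 i v hi).2 τ hτ
      · rw [hr5 v hv (Finset.notMem_empty v) (fun i hi => h ⟨i, hi⟩) τ hτ, one_pow]
    · intro v hv
      obtain ⟨i, -, hi⟩ := Finset.mem_biUnion.1 hv
      exact hS i v hi
    · intro v hv hvT
      refine hr5 v hv (Finset.notMem_empty v)
        (fun i hi => hvT (Finset.mem_biUnion.2 ⟨i, Finset.mem_univ i, hi⟩)) _ ?_
      rw [inr, dif_pos hv, LDs.t, dif_pos hv]
      exact (L.ld v hv).ht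
    · intro v hv hnp
      obtain ⟨i, -, hi⟩ := Finset.mem_biUnion.1 hv
      exact absurd (hg i v hi).2 hnp
  rw [Finset.sum_biUnion (by
    intro i _ j _ hij
    exact hdj i j hij)] at hiv0
  rw [Finset.sum_congr rfl fun i _ => Finset.sum_congr rfl fun v hv => hloc i v hv]
  simp only [Finset.sum_add_distrib]
  rw [hiv0, zero_add]

end H57.LOW
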