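import Pool.Agent.H57.LOW.Lod
import Pool.Agent.H57.LOW.Loc

/-!
# [H57 LOW LOE] the contribution of a constant family, 80-150 lines. File Pool/Agent/H57/LOW/Loe.lean

`RCard L Dg h` (proved by helper77): for `f` disjoint families of good primes with trivial classes: if `kV (F_1 v) (s i) = 0` at all typed primes, `F_1 v = (LL v (akR 1 f k))_k`, then
`RHf` has `h * ∏ i, (# class of q (g i) in R) ^ #(f i)` elements; otherwise it is empty.

`awf_eq`: `AWf Dg Fr 1 ∅ 1 ψ f = h * wtR Dg.cr f F_1 * ep (∑ i, ∑ v ∈ f i, dt (θ i) (F_1 v))` for `f ∈ Fam0`, `θ` from `lo_phase`.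
Proof. `wtR Dg.cr f F_1 = ∏ i, ∏ v ∈ f i, if ∀ θ' ∈ ann0 (C i), dt θ' (F_1 v) = 0 then #(ann0 (C i)) else 0`; the condition is `F_1 v ∈ C i` (`ann_ann`: double annihilator; one inclusion is clear, the other by counting with `ann_card` or
`Submodule.exists_dual_map_eq_bot`-type lemmas).
(a) If `F_1 v ∉ C i` for some typed `v`, the right side is `0`; for `ρ ∈ RHf` (if any) `cq ρ v ∉ Bi i` by `lob_mem` and `rh_F`, so all terms of `AWf` are `0`.
(b) Otherwise `kV (F_1 v) (s i) = 0` (`lob_kv`), `cq ρ v ∈ Bi i` for all typed `v` and all `ρ ∈ RHf` (`lob_mem`), so by `lo_phase` every term is `(∏ i, (Wn i / #Bi i) ^ #(f i)) * ep (∑ ∑ dt (θ i) (F_1 v))`; the number of terms is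
`h * ∏ i, (#class) ^ #(f i)`, and `#class * Wn i / #Bi i = #(ann0 (C i))` by `wn_card` (`#Bi i ≠ 0`). `∏ v ∈ f i, const = const ^ #(f i)`.
Membership `ρ ∈ RHf` gives `ρ ∈ RH`: unfold `RHf` (`if` on finiteness; in the else case the set is empty).
-/

set_option autoImplicit false

open scoped NumberField
open IsDedekindDomain
open scoped Classical

noncomputable section

namespace H57.LOW

open H57.PC H57.BRA H63.MA H38.BB H38.BG

variable {K : Type} [Field K] [NumberField K] {p : ℕ} {ζ : K} {Ω : Type}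
  [Field Ω] [Algebra K Ω] [IsAlgClosure K Ω] {m l w N : ℕ} {P R : Type} [Group P] [Group R]

/-- the number of the homomorphisms to `R` with given data -/
def RCard [NeZero p] {D : RD0 K p ζ} (L : LDs D Ω) (Dg : GP p m l w N P R) (h : ℕ) : Prop :=
  1 ≤ h ∧ ∀ f : Fin N → Finset (Pl K), Dj f → (∀ i, ∀ v ∈ f i, D.Gd v) →
    (∀ i, qf D (f i) = 0) →
    ((∀ i, ∀ v ∈ f i, Dg.kV (fun k => D.LL v (akR D Dg.cr (fun _ => 1) f k)) (Dg.s i) = 0) →
      (RHf L Dg (fun _ => 1) ∅ (fun _ _ => 1) f).card =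
        h * ∏ i, Nat.card {r : R // IsConj r (Dg.q (Dg.g i))} ^ (f i).card) ∧
    ((¬ ∀ i, ∀ v ∈ f i, Dg.kV (fun k => D.LL v (akR D Dg.cr (fun _ => 1) f k)) (Dg.s i) = 0) →
      RHf L Dg (fun _ => 1) ∅ (fun _ _ => 1) f = ∅)

/-- A linear form on `Fin m → ZMod p` is a scalar product. -/
theorem loe_dual {p m : ℕ} (f : (Fin m → ZMod p) →ₗ[ZMod p] ZMod p) (x : Fin m → ZMod p) :
    dt (fun k => f (Pi.single k 1)) x = f x := by
  have h : x = ∑ k, x k • (Pi.single k (1 : ZMod p) : Fin m → ZMod p) := by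
    funext j
    rw [Finset.sum_apply, Finset.sum_eq_single j]
    · rw [Pi.smul_apply, Pi.single_eq_same, smul_eq_mul, mul_one]
    · intro b _ hb
      rw [Pi.smul_apply, Pi.single_eq_of_ne (Ne.symm hb), smul_zero]
    · intro h
      exact absurd (Finset.mem_univ j) h
  conv_rhs => rw [h]
  rw [map_sum, dt]
  refine Finset.sum_congr rfl fun k _ => ?_
  rw [map_smul, smul_eq_mul, mul_comm]

theorem ann_ann [NeZero p] (hp : p.Prime) (C : Submodule (ZMod p) (Fin m → ZMod p))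
    (u : Fin m → ZMod p) : u ∈ C ↔ ∀ θ ∈ ann0 C, dt θ u = 0 := by
  have : Fact p.Prime := ⟨hp⟩
  constructor
  · intro hu θ hθ
    exact hθ u hu
  · intro h
    by_contra hu
    obtain ⟨f, hf, hC⟩ := Submodule.exists_le_ker_of_notMem hu
    apply hf
    rw [← loe_dual f u]
    refine h _ fun x hx => ?_
    rw [loe_dual f x]
    exact hC hx

theorem loe_mem [NeZero p] {D : RD0 K p ζ} {L : LDs D Ω} {Dg : GP p m l w N P R}
    {b : Fin m → Kˣ} {E : Finset (Pl K)} {ε : Pl K → Gal(Ω/K) → R}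
    {f : Fin N → Finset (Pl K)} {ρ : Gal(Ω/K) →* R} (h : ρ ∈ RHf L Dg b E ε f) :
    ρ ∈ RH L Dg b E ε f := by
  unfold RHf at h
  split_ifs at h with h1
  · exact (Set.Finite.mem_toFinset h1).1 h
  · exact absurd h (Finset.notMem_empty _)

theorem loe_wt [NeZero p] (hp : p.Prime) (Dg : GP p m l w N P R) (f : Fin N → Finset (Pl K))
    (F : Pl K → Fin m → ZMod p) :
    wtR Dg.cr f F = if ∀ i, ∀ v ∈ f i, F v ∈ Dg.C i then
      ∏ i, (Nat.card (ann0 (Dg.C i)) : ℝ) ^ (f i).card else 0 := by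
  unfold wtR
  split_ifs with h
  · refine Finset.prod_congr rfl fun i _ => ?_
    rw [← Finset.prod_const]
    refine Finset.prod_congr rfl fun v hv => ?_
    rw [if_pos]
    · rfl
    · exact (ann_ann hp (Dg.C i) (F v)).1 (h i v hv)
  · push Not at h
    obtain ⟨i, v, hv, hF⟩ := h
    refine Finset.prod_eq_zero (Finset.mem_univ i) (Finset.prod_eq_zero hv ?_)
    rw [if_neg]
    intro h1
    exact hF ((ann_ann hp (Dg.C i) (F v)).2 h1)

theorem awf_eq [NeZero p] [Finite P] (hp : p.Prime) (hp2 : p ≠ 2) (hζ : IsPrimitiveRoot ζ p)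
    (hz : Z2 p K) {D : RD0 K p ζ} {L : LDs D Ω} (Dg : GP p m l w N P R) (Fr : FR L) {h : ℕ}
    (hR : RCard L Dg h) (ψ : Fin N → Fin l → ZMod p) (hψ : InJ0 Dg ψ) :
    ∃ θ : Fin N → Fin m → ZMod p, (∀ i, dt (θ i) (Dg.s i) = 0) ∧ (ψ = 0 → θ = 0) ∧
      ∀ Y : ℝ, ∀ f ∈ Fam0 D N Y, AWf Dg Fr (fun _ => 1) ∅ (fun _ _ => 1) ψ f =
        h * ((wtR Dg.cr f (fun v k => D.LL v (akR D Dg.cr (fun _ => 1) f k)) : ℝ) : ℂ) *
          ep p (∑ i, ∑ v ∈ f i, dt (θ i) (fun k => D.LL v (akR D Dg.cr (fun _ => 1) f k))) := by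
  have : Finite R := Finite.of_surjective _ Dg.qs
  obtain ⟨θ, hθ1, hθ2, hθ3⟩ := lo_phase hp hp2 hζ hz (D := D) (L := L) Dg Fr ψ hψ
  refine ⟨θ, hθ1, hθ2, fun Y f hf => ?_⟩
  unfold Fam0 at hf
  rw [Finset.mem_filter, Fintype.mem_piFinset] at hf
  obtain ⟨hf1, hDj, -, hq⟩ := hf
  have hg : ∀ i, ∀ v ∈ f i, D.Gd v := fun i => (atupa_mem_GF.1 (hf1 i)).2
  obtain ⟨F, hF⟩ : ∃ F : Pl K → Fin m → ZMod p,
      F = fun v k => D.LL v (akR D Dg.cr (fun _ => 1) f k) := ⟨_, rfl⟩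
  have hrF : ∀ ρ ∈ RHf L Dg (fun _ => (1 : Kˣ)) ∅ (fun _ _ => (1 : R)) f, ∀ i, ∀ v ∈ f i,
      (cq Dg Fr ρ v ∈ Dg.Bi i ↔ F v ∈ Dg.C i) := by
    intro ρ hρ i v hv
    obtain ⟨h1, h2, h3⟩ := rh_F Dg Fr hg (loe_mem hρ) hv
    rw [hF]
    change _ ↔ (fun k => D.LL v (akR D Dg.cr (fun _ => 1) f k)) ∈ Dg.C i
    rw [← h3]
    exact lob_mem hp Dg i h1 h2
  have hFv : ∀ v, (fun k => D.LL v (akR D Dg.cr (fun _ => 1) f k)) = F v := fun v => by rw [hF]
  have hFv' : (fun v k => D.LL v (akR D Dg.cr (fun _ => 1) f k)) = F := by rw [hF]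
  rw [hFv', loe_wt hp]
  by_cases hC : ∀ i, ∀ v ∈ f i, F v ∈ Dg.C i
  · rw [if_pos hC]
    have hkV : ∀ i, ∀ v ∈ f i,
        Dg.kV (fun k => D.LL v (akR D Dg.cr (fun _ => 1) f k)) (Dg.s i) = 0 := by
      intro i v hv
      rw [hFv]
      exact lob_kv Dg i (hC i v hv)
    have hcard := (hR.2 f hDj hg hq).1 hkV
    have hterm : ∀ ρ ∈ RHf L Dg (fun _ => (1 : Kˣ)) ∅ (fun _ _ => (1 : R)) f,
        (if ∀ i, ∀ v ∈ f i, cq Dg Fr ρ v ∈ Dg.Bi i then
          ((∏ i, ((Dg.Wn i : ℝ) / Nat.card (Dg.Bi i)) ^ (f i).card : ℝ) : ℂ) *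
            ep p (∑ i, ∑ v ∈ f i, xi Dg (ψ i) i (cq Dg Fr ρ v)) else 0) =
        ((∏ i, ((Dg.Wn i : ℝ) / Nat.card (Dg.Bi i)) ^ (f i).card : ℝ) : ℂ) *
          ep p (∑ i, ∑ v ∈ f i, dt (θ i) (F v)) := by
      intro ρ hρ
      have h1 : ∀ i, ∀ v ∈ f i, cq Dg Fr ρ v ∈ Dg.Bi i :=
        fun i v hv => (hrF ρ hρ i v hv).2 (hC i v hv)
      rw [if_pos h1, hθ3 f hDj hg hq ρ (loe_mem hρ) h1]
      simp only [hFv]
    unfold AWf
    rw [Finset.sum_congr rfl hterm, Finset.sum_const, hcard, nsmul_eq_mul, ← mul_assoc]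
    simp only [hFv]
    congr 1
    have hB : ∀ i, (Nat.card (Dg.Bi i) : ℝ) ≠ 0 := by
      intro i
      have : Nat.card (Dg.Bi i) ≠ 0 := Nat.card_pos.ne'
      exact_mod_cast this
    have hw : ∀ i, (Nat.card {r : R // IsConj r (Dg.q (Dg.g i))} : ℝ) *
        ((Dg.Wn i : ℝ) / Nat.card (Dg.Bi i)) = (Nat.card (ann0 (Dg.C i)) : ℝ) := by
      intro i
      have h1 := wn_card hp Dg i
      have h2 : (Nat.card {r : R // IsConj r (Dg.q (Dg.g i))} : ℝ) * (Dg.Wn i : ℝ) =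
          (Nat.card (Dg.Bi i) : ℝ) * (Nat.card (ann0 (Dg.C i)) : ℝ) := by exact_mod_cast h1
      rw [← mul_div_assoc, h2, mul_div_cancel_left₀ _ (hB i)]
    have hreal : ((h * ∏ i, Nat.card {r : R // IsConj r (Dg.q (Dg.g i))} ^ (f i).card : ℕ) : ℝ) *
        (∏ i, ((Dg.Wn i : ℝ) / Nat.card (Dg.Bi i)) ^ (f i).card) =
        (h : ℝ) * ∏ i, (Nat.card (ann0 (Dg.C i)) : ℝ) ^ (f i).card := by
      rw [Nat.cast_mul, Nat.cast_prod, mul_assoc, ← Finset.prod_mul_distrib]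
      congr 1
      refine Finset.prod_congr rfl fun i _ => ?_
      rw [Nat.cast_pow, ← mul_pow, hw]
    exact_mod_cast congrArg (fun x : ℝ => (x : ℂ)) hreal
  · rw [if_neg hC]
    unfold AWf
    rw [Complex.ofReal_zero, mul_zero, zero_mul]
    refine Finset.sum_eq_zero fun ρ hρ => ?_
    rw [if_neg]
    intro h1
    exact hC fun i v hv => (hrF ρ hρ i v hv).1 (h1 i v hv)

end H57.LOW
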