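import Pool.Agent.H57.PC.Def2

/-!
# [H57 LOW LOA] unlinked families are bilinear forms, 80-140 lines. File Pool/Agent/H57/LOW/Loa.lean

* `s_span`: the `Dg.s i` span `Fin m → ZMod p`: let `H` be the set of `x ∈ P` with `π (q x)` in the span (a subgroup, contains all conjugates of the `g i` because `π ∘ q` has commutative target); `Dg.gen`
  gives `H = ⊤`, and `π ∘ q` is surjective.
* `kvs_span`: the `kV (s j) (s k)` span `Fin l → ZMod p` (`Dg.kspan`, bilinearity and `s_span`).
* `psi_lin`: for `InJ0 Dg ψ` there is a bilinear `Ψ` with `Ψ v (s i) = dt (ψ i) v` and the Jacobi relation. For fixed `v` the linear form `U → ZMod p` with `s i ↦ dt (ψ i) v` exists because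
  `∑ λ_i s_i = 0` implies `∑ λ_i dt (ψ i) v = 0` for all `v`: by `kvs_span` take `v = kV (s j) (s k)`; then
  `∑_i λ_i dt (ψ i) (kV s_j s_k) = -∑_i λ_i (dt (ψ j) (kV s_k s_i) + dt (ψ k) (kV s_i s_j)) = -dt (ψ j) (kV s_k 0) - dt (ψ k) (kV 0 s_j) = 0`.
  Construction: the map `L : (Fin N → ZMod p) → (Fin m → ZMod p)`, `λ ↦ ∑ λ_i s_i` is surjective; the bilinear map `(v, λ) ↦ ∑ λ_i dt (ψ i) v` vanishes on `ker L`; choose a linear right inverse `g` of `L`
  (`LinearMap.exists_rightInverse_of_surjective`) and put `Ψ v u = ∑ (g u)_i dt (ψ i) v`. Jacobi: trilinear in `a, b, c`, holds on the spanning set (three uses of `Submodule.span_induction`, or write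
  `a, b, c` as combinations `a = ∑ (g a)_i s_i`).
-/

set_option autoImplicit false

noncomputable section

namespace H57.LOW

open H57.PC H63.MA

variable {p m l w N : ℕ} {P R : Type} [Group P] [Group R]

theorem s_span (Dg : GP p m l w N P R) :
    Submodule.span (ZMod p) (Set.range Dg.s) = ⊤ := by
  let H : Subgroup P :=
    { carrier := {x | Multiplicative.toAdd (Dg.π (Dg.q x)) ∈
        Submodule.span (ZMod p) (Set.range Dg.s)}
      mul_mem' := by
        intro x y hx hy
        change Multiplicative.toAdd (Dg.π (Dg.q (x * y))) ∈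
          Submodule.span (ZMod p) (Set.range Dg.s)
        rw [map_mul, map_mul, toAdd_mul]
        exact Submodule.add_mem _ hx hy
      one_mem' := by
        change Multiplicative.toAdd (Dg.π (Dg.q 1)) ∈
          Submodule.span (ZMod p) (Set.range Dg.s)
        rw [map_one, map_one, toAdd_one]
        exact Submodule.zero_mem _
      inv_mem' := by
        intro x hx
        change Multiplicative.toAdd (Dg.π (Dg.q x⁻¹)) ∈
          Submodule.span (ZMod p) (Set.range Dg.s)
        rw [map_inv, map_inv, toAdd_inv]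
        exact Submodule.neg_mem _ hx }
  have hH : H = ⊤ := by
    refine Dg.gen H fun i x hx => ?_
    obtain ⟨c, hc⟩ := isConj_iff.1 hx
    change Multiplicative.toAdd (Dg.π (Dg.q x)) ∈
          Submodule.span (ZMod p) (Set.range Dg.s)
    have h1 : Multiplicative.toAdd (Dg.π (Dg.q x)) = Dg.s i := by
      have h2 : Dg.π (Dg.q (c * x * c⁻¹)) = Dg.π (Dg.q x) := by
        simp only [map_mul, map_inv]
        exact mul_inv_cancel_comm _ _
      unfold GP.s
      rw [← hc, h2]
    rw [h1]
    exact Submodule.subset_span ⟨i, rfl⟩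
  rw [eq_top_iff]
  intro u _
  obtain ⟨r, hr⟩ := Dg.πs (Multiplicative.ofAdd u)
  obtain ⟨x, hx⟩ := Dg.qs r
  have h1 : x ∈ H := by
    rw [hH]
    exact Subgroup.mem_top x
  have h2 : Multiplicative.toAdd (Dg.π (Dg.q x)) ∈
      Submodule.span (ZMod p) (Set.range Dg.s) := h1
  rwa [hx, hr, toAdd_ofAdd] at h2

theorem kvs_span (Dg : GP p m l w N P R) :
    Submodule.span (ZMod p) {v | ∃ j k, v = Dg.kV (Dg.s j) (Dg.s k)} = ⊤ := by
  rw [eq_top_iff, ← Dg.kspan, Submodule.span_le]
  rintro _ ⟨x, y, rfl⟩
  have hx : x ∈ Submodule.span (ZMod p) (Set.range Dg.s) := by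
    rw [s_span]
    exact Submodule.mem_top
  have hy : y ∈ Submodule.span (ZMod p) (Set.range Dg.s) := by
    rw [s_span]
    exact Submodule.mem_top
  rw [SetLike.mem_coe]
  induction hx using Submodule.span_induction with
  | mem x hx =>
    obtain ⟨j, rfl⟩ := hx
    induction hy using Submodule.span_induction with
    | mem y hy =>
      obtain ⟨k, rfl⟩ := hy
      exact Submodule.subset_span ⟨j, k, rfl⟩
    | zero =>
      rw [map_zero]
      exact Submodule.zero_mem _
    | add a b _ _ ha hb =>
      rw [map_add]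
      exact Submodule.add_mem _ ha hb
    | smul c a _ ha =>
      rw [map_smul]
      exact Submodule.smul_mem _ _ ha
  | zero =>
    rw [map_zero, LinearMap.zero_apply]
    exact Submodule.zero_mem _
  | add a b _ _ ha hb =>
    rw [map_add, LinearMap.add_apply]
    exact Submodule.add_mem _ ha hb
  | smul c a _ ha =>
    rw [map_smul, LinearMap.smul_apply]
    exact Submodule.smul_mem _ _ ha

/-- the linear form `dt θ` -/
private def loaD (θ : Fin l → ZMod p) : (Fin l → ZMod p) →ₗ[ZMod p] ZMod p where
  toFun v := dt θ v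
  map_add' u v := by
    simp only [dt, Pi.add_apply, mul_add, Finset.sum_add_distrib]
  map_smul' c v := by
    simp only [dt, Pi.smul_apply, smul_eq_mul, Finset.mul_sum, RingHom.id_apply]
    exact Finset.sum_congr rfl fun k _ => by ring

private theorem loaD_apply (θ v : Fin l → ZMod p) : loaD θ v = dt θ v := rfl

private theorem loa_key (Dg : GP p m l w N P R) (ψ : Fin N → Fin l → ZMod p)
    (h : InJ0 Dg ψ) (c : Fin N → ZMod p) (hc : ∑ i, c i • Dg.s i = 0) (v : Fin l → ZMod p) :
    ∑ i, c i * loaD (ψ i) v = 0 := by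
  have hv : v ∈ Submodule.span (ZMod p) {v | ∃ j k, v = Dg.kV (Dg.s j) (Dg.s k)} := by
    rw [kvs_span]
    exact Submodule.mem_top
  induction hv using Submodule.span_induction with
  | mem v hv =>
    obtain ⟨j, k, rfl⟩ := hv
    have h1 : ∀ i, c i * loaD (ψ i) (Dg.kV (Dg.s j) (Dg.s k)) =
        -(loaD (ψ j) (Dg.kV (Dg.s k) (c i • Dg.s i)) +
          loaD (ψ k) (Dg.kV (c i • Dg.s i) (Dg.s j))) := by
      intro i
      have h2 := h.2 i j k
      rw [← loaD_apply, ← loaD_apply, ← loaD_apply] at h2
      rw [map_smul, map_smul, map_smul, LinearMap.smul_apply, map_smul, smul_eq_mul, smul_eq_mul]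
      linear_combination c i * h2
    rw [Finset.sum_congr rfl fun i _ => h1 i, Finset.sum_neg_distrib, Finset.sum_add_distrib,
      ← map_sum, ← map_sum, hc, map_zero, map_zero, ← map_sum]
    have h3 : ∑ i, Dg.kV (c i • Dg.s i) (Dg.s j) = 0 := by
      rw [← LinearMap.sum_apply, ← map_sum, hc, map_zero, LinearMap.zero_apply]
    rw [h3, map_zero, add_zero, neg_zero]
  | zero => simp
  | add a b _ _ ha hb =>
    simp only [map_add, mul_add, Finset.sum_add_distrib, ha, hb, add_zero]
  | smul d a _ ha =>
    have h1 : ∀ i, c i * loaD (ψ i) (d • a) = d * (c i * loaD (ψ i) a) := by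
      intro i
      rw [map_smul, smul_eq_mul]
      ring
    rw [Finset.sum_congr rfl fun i _ => h1 i, ← Finset.mul_sum, ha, mul_zero]

theorem psi_lin (hp : p.Prime) (Dg : GP p m l w N P R) (ψ : Fin N → Fin l → ZMod p)
    (h : InJ0 Dg ψ) :
    ∃ Ψ : (Fin l → ZMod p) →ₗ[ZMod p] (Fin m → ZMod p) →ₗ[ZMod p] ZMod p,
      (∀ i v, Ψ v (Dg.s i) = dt (ψ i) v) ∧
      ∀ a b c, Ψ (Dg.kV a b) c + Ψ (Dg.kV b c) a + Ψ (Dg.kV c a) b = 0 := by
  classical
  have hfact : Fact p.Prime := ⟨hp⟩
  let L : (Fin N → ZMod p) →ₗ[ZMod p] (Fin m → ZMod p) := Fintype.linearCombination (ZMod p) Dg.s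
  have hL : ∀ c, L c = ∑ i, c i • Dg.s i := fun c => rfl
  have hr : LinearMap.range L = ⊤ := by
    rw [← s_span Dg]
    exact Fintype.range_linearCombination (ZMod p) Dg.s
  obtain ⟨g, hg⟩ := L.exists_rightInverse_of_surjective hr
  have hg' : ∀ u, L (g u) = u := fun u => by
    have := LinearMap.congr_fun hg u
    simpa using this
  let Ψ : (Fin l → ZMod p) →ₗ[ZMod p] (Fin m → ZMod p) →ₗ[ZMod p] ZMod p :=
    LinearMap.mk₂ (ZMod p) (fun v u => ∑ i, g u i * loaD (ψ i) v)
      (fun v v' u => by simp only [map_add, mul_add, Finset.sum_add_distrib])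
      (fun c v u => by
        simp only [map_smul, smul_eq_mul, Finset.mul_sum]
        exact Finset.sum_congr rfl fun k _ => by ring)
      (fun v u u' => by simp only [map_add, Pi.add_apply, add_mul, Finset.sum_add_distrib])
      (fun c v u => by
        simp only [map_smul, Pi.smul_apply, smul_eq_mul, Finset.mul_sum]
        exact Finset.sum_congr rfl fun k _ => by ring)
  have hΨ : ∀ v u, Ψ v u = ∑ i, g u i * loaD (ψ i) v := fun v u => rfl
  have h1 : ∀ i v, Ψ v (Dg.s i) = dt (ψ i) v := by
    intro i v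
    have h2 := loa_key Dg ψ h (fun j => g (Dg.s i) j - (if j = i then 1 else 0)) (by
      simp only [sub_smul, Finset.sum_sub_distrib, ite_smul, one_smul, zero_smul,
        Finset.sum_ite_eq', Finset.mem_univ, if_true]
      rw [← hL, hg', sub_self]) v
    simp only [sub_mul, Finset.sum_sub_distrib, ite_mul, one_mul, zero_mul,
        Finset.sum_ite_eq', Finset.mem_univ, if_true] at h2
    rw [hΨ]
    exact sub_eq_zero.1 h2
  refine ⟨Ψ, h1, ?_⟩
  have hmem : ∀ u : Fin m → ZMod p, u ∈ Submodule.span (ZMod p) (Set.range Dg.s) := by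
    intro u
    rw [s_span]
    exact Submodule.mem_top
  have s1 : ∀ i j c, Ψ (Dg.kV (Dg.s i) (Dg.s j)) c + Ψ (Dg.kV (Dg.s j) c) (Dg.s i) +
      Ψ (Dg.kV c (Dg.s i)) (Dg.s j) = 0 := by
    intro i j c
    have hc := hmem c
    induction hc using Submodule.span_induction with
    | mem c hc =>
      obtain ⟨k, rfl⟩ := hc
      rw [h1, h1, h1]
      linear_combination h.2 i j k
    | zero => simp
    | add a b _ _ ha hb =>
      simp only [map_add, LinearMap.add_apply]
      linear_combination ha + hb
    | smul d a _ ha =>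
      simp only [map_smul, LinearMap.smul_apply, smul_eq_mul]
      linear_combination d * ha
  have s2 : ∀ i b c, Ψ (Dg.kV (Dg.s i) b) c + Ψ (Dg.kV b c) (Dg.s i) +
      Ψ (Dg.kV c (Dg.s i)) b = 0 := by
    intro i b c
    have hb := hmem b
    induction hb using Submodule.span_induction with
    | mem b hb =>
      obtain ⟨j, rfl⟩ := hb
      exact s1 i j c
    | zero => simp
    | add a b _ _ ha hb =>
      simp only [map_add, LinearMap.add_apply]
      linear_combination ha + hb
    | smul d a _ ha =>
      simp only [map_smul, LinearMap.smul_apply, smul_eq_mul]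
      linear_combination d * ha
  intro a b c
  have ha := hmem a
  induction ha using Submodule.span_induction with
  | mem a ha =>
    obtain ⟨i, rfl⟩ := ha
    exact s2 i b c
  | zero => simp
  | add a a' _ _ ha hb =>
    simp only [map_add, LinearMap.add_apply]
    linear_combination ha + hb
  | smul d a _ ha =>
    simp only [map_smul, LinearMap.smul_apply, smul_eq_mul]
    linear_combination d * ha

end H57.LOW
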