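import Pool.Agent.H57.PC.Def2

/-!
# [H57 LOW EPA] coordinates of R (Baer), 100-180 lines. File Pool/Agent/H57/LOW/Epa.lean

`p` odd, `Dg : GP ..`, `V = ker Dg.π` central in `R`, `kV` the commutator form.
* `kv_self`, `kv_swap`: from `Dg.hk` (`r = r'`; the commutator of `r', r` is the inverse of that of `r, r'`, `cv` of the inverse is `-cv` by `vadd`) and surjectivity of `π`.
* `vpow`: `v ^ p = 1` for `v ∈ V`: `cv k (v ^ n) = n * cv k v` by induction (`vadd`), `vinj`. (`cv k 1 = 0` from `vadd` with `u = v = 1`.)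
* `rexp`: `r ^ p = 1` for all `r ∈ R`: the set of these `r` is closed under products: `(x y)^n = x^n y^n [y, x]^(n (n - 1) / 2)` in a group of class 2 (commutators of `R` lie in
  `V`: `π` of a commutator is `1`), `p ∣ p (p - 1) / 2` for odd `p` and `[y, x]^p = 1`. So it is a subgroup `H0`, normal; `H = H0.comap Dg.q` contains all conjugates of the `g i` (`pow`),
  so `H = ⊤` by `Dg.gen`, and `q` is surjective.
* `vr_exists` (Baer): define `x ⊕ y = x * y * z⁻¹` where `z ∈ V` has `cv z = 2⁻¹ * kV (π x) (π y)` (`vsur`, `vinj`: `z` is unique; `z` is bilinear in `x, y`: `z(x y, w) = z(x, w) z(y, w)`). On a type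
  synonym of `R` this is an abelian group (commutative: `x y = y x [x, y]` up to the order, `cv [x, y] = kV (π x) (π y)` and `2⁻¹ k - 2⁻¹ (-k) = k`; associative because `z` depends only on `π` and is biadditive;
  neutral element `1`, inverse `x⁻¹` because `kV u u = 0`), `n • x = x ^ n` (induction: `z (x ^ n) x = 1`), so of exponent `p`: a vector space over `ZMod p` (`AddCommGroup.zmodModule`). `V` is a subspace, on which `⊕` is the
  product, and `cv k` is linear on `V`; extend it to a linear form `vr k` on the whole space (`LinearMap.exists_extend`). Then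
  `vr (x * y) = vr ((x ⊕ y) ⊕ z) = vr x + vr y + 2⁻¹ kV (π x) (π y)` (`x * y = (x * y * z⁻¹) * z`, and `u ⊕ z = u * z` for `z ∈ V` because `kV (π u) 0 = 0`).
  Another way without a type synonym: choose `r_j` with `π r_j = e_j`, normal form `r = r_1^(a_1) ⋯ r_m^(a_m) v`; any correct proof is fine.
-/

set_option autoImplicit false

noncomputable section

namespace H57.LOW

open H57.PC

variable {p m l w N : ℕ} {P R : Type} [Group P] [Group R]

theorem epa_cv_one (Dg : GP p m l w N P R) (k : Fin l) : Dg.cv k 1 = 0 := by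
  have h := Dg.vadd k 1 1 (map_one _) (map_one _)
  rw [mul_one] at h
  exact left_eq_add.mp h

theorem epa_cv_inv (Dg : GP p m l w N P R) (k : Fin l) {v : R} (hv : Dg.π v = 1) :
    Dg.cv k v⁻¹ = -Dg.cv k v := by
  have h := Dg.vadd k v v⁻¹ hv (by rw [map_inv, hv, inv_one])
  rw [mul_inv_cancel, epa_cv_one] at h
  exact (neg_eq_of_add_eq_zero_right h.symm).symm

theorem epa_ext (Dg : GP p m l w N P R) {a b : R} (ha : Dg.π a = 1) (hb : Dg.π b = 1)
    (h : ∀ k, Dg.cv k a = Dg.cv k b) : a = b := by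
  have hb' : Dg.π b⁻¹ = 1 := by rw [map_inv, hb, inv_one]
  have h1 : a * b⁻¹ = 1 := by
    refine Dg.vinj _ (by rw [map_mul, ha, hb', one_mul]) fun k => ?_
    rw [Dg.vadd k a b⁻¹ ha hb', epa_cv_inv Dg k hb, h k, add_neg_cancel]
  exact mul_inv_eq_one.mp h1

/-- the element of `V` with coordinates `y` -/
def epa_vv (Dg : GP p m l w N P R) (y : Fin l → ZMod p) : R := (Dg.vsur y).choose

theorem epa_vv_pi (Dg : GP p m l w N P R) (y : Fin l → ZMod p) : Dg.π (epa_vv Dg y) = 1 :=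
  (Dg.vsur y).choose_spec.1

theorem epa_vv_cv (Dg : GP p m l w N P R) (y : Fin l → ZMod p) (k : Fin l) :
    Dg.cv k (epa_vv Dg y) = y k := (Dg.vsur y).choose_spec.2 k

theorem epa_vv_add (Dg : GP p m l w N P R) (y y' : Fin l → ZMod p) :
    epa_vv Dg (y + y') = epa_vv Dg y * epa_vv Dg y' := by
  refine epa_ext Dg (epa_vv_pi Dg _) (by rw [map_mul, epa_vv_pi, epa_vv_pi, one_mul]) fun k => ?_
  rw [Dg.vadd k _ _ (epa_vv_pi Dg _) (epa_vv_pi Dg _), epa_vv_cv, epa_vv_cv, epa_vv_cv]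
  rfl

theorem epa_vv_zero (Dg : GP p m l w N P R) : epa_vv Dg 0 = 1 := by
  refine epa_ext Dg (epa_vv_pi Dg _) (map_one _) fun k => ?_
  rw [epa_vv_cv, epa_cv_one]
  rfl

theorem epa_vv_comm (Dg : GP p m l w N P R) (y : Fin l → ZMod p) (r : R) :
    epa_vv Dg y * r = r * epa_vv Dg y := Dg.vcen _ (epa_vv_pi Dg y) r

/-- the commutator form on `R` -/
def epa_kk (Dg : GP p m l w N P R) (x y : R) : Fin l → ZMod p :=
  Dg.kV (Multiplicative.toAdd (Dg.π x)) (Multiplicative.toAdd (Dg.π y))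

theorem epa_kk_mull (Dg : GP p m l w N P R) (x x' y : R) :
    epa_kk Dg (x * x') y = epa_kk Dg x y + epa_kk Dg x' y := by
  unfold epa_kk
  rw [map_mul, toAdd_mul, map_add, LinearMap.add_apply]

theorem epa_kk_mulr (Dg : GP p m l w N P R) (x y y' : R) :
    epa_kk Dg x (y * y') = epa_kk Dg x y + epa_kk Dg x y' := by
  unfold epa_kk
  rw [map_mul, toAdd_mul, map_add]

theorem epa_kk_vl (Dg : GP p m l w N P R) {x : R} (hx : Dg.π x = 1) (y : R) :
    epa_kk Dg x y = 0 := by
  unfold epa_kk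
  rw [hx, toAdd_one, map_zero, LinearMap.zero_apply]

theorem epa_kk_vr (Dg : GP p m l w N P R) (x : R) {y : R} (hy : Dg.π y = 1) :
    epa_kk Dg x y = 0 := by
  unfold epa_kk
  rw [hy, toAdd_one, map_zero]

theorem epa_pi_comm (Dg : GP p m l w N P R) (x y : R) : Dg.π (x * y * x⁻¹ * y⁻¹) = 1 := by
  rw [map_mul, map_mul, map_mul, map_inv, map_inv, mul_comm (Dg.π x) (Dg.π y), mul_inv_cancel_right,
    mul_inv_cancel]

theorem epa_comm (Dg : GP p m l w N P R) (x y : R) :
    x * y = epa_vv Dg (epa_kk Dg x y) * (y * x) := by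
  have h : x * y * x⁻¹ * y⁻¹ = epa_vv Dg (epa_kk Dg x y) := by
    refine epa_ext Dg (epa_pi_comm Dg x y) (epa_vv_pi Dg _) fun k => ?_
    rw [Dg.hk, epa_vv_cv]
    rfl
  rw [← h]
  group

theorem kv_self (Dg : GP p m l w N P R) (u : Fin m → ZMod p) : Dg.kV u u = 0 := by
  obtain ⟨r, hr⟩ := Dg.πs (Multiplicative.ofAdd u)
  funext k
  have h := Dg.hk r r k
  rw [hr, toAdd_ofAdd, mul_inv_cancel_right, mul_inv_cancel, epa_cv_one] at h
  exact h.symm

theorem kv_swap (Dg : GP p m l w N P R) (u u' : Fin m → ZMod p) : Dg.kV u u' = -Dg.kV u' u := by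
  have h := kv_self Dg (u + u')
  rw [map_add, map_add, LinearMap.add_apply, LinearMap.add_apply, kv_self, kv_self, zero_add,
    add_zero] at h
  exact eq_neg_of_add_eq_zero_right h

theorem epa_cv_pow (Dg : GP p m l w N P R) (k : Fin l) {v : R} (hv : Dg.π v = 1) (n : ℕ) :
    Dg.cv k (v ^ n) = n * Dg.cv k v := by
  induction n with
  | zero => rw [pow_zero, epa_cv_one, Nat.cast_zero, zero_mul]
  | succ n ih =>
    rw [pow_succ, Dg.vadd k _ _ (by rw [map_pow, hv, one_pow]) hv, ih, Nat.cast_succ, add_mul, one_mul]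

theorem vpow (Dg : GP p m l w N P R) (v : R) (hv : Dg.π v = 1) : v ^ p = 1 := by
  refine epa_ext Dg (by rw [map_pow, hv, one_pow]) (map_one _) fun k => ?_
  rw [epa_cv_pow Dg k hv, epa_cv_one, CharP.cast_eq_zero, zero_mul]

theorem epa_kk_self (Dg : GP p m l w N P R) (x : R) : epa_kk Dg x x = 0 := kv_self Dg _

theorem epa_kk_swap (Dg : GP p m l w N P R) (x y : R) : epa_kk Dg x y = -epa_kk Dg y x :=
  kv_swap Dg _ _

theorem epa_kk_pow (Dg : GP p m l w N P R) (x : R) (n : ℕ) : epa_kk Dg (x ^ n) x = 0 := by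
  induction n with
  | zero => rw [pow_zero, epa_kk_vl Dg (map_one _)]
  | succ n ih => rw [pow_succ, epa_kk_mull, ih, epa_kk_self, add_zero]

/-- the sum of Baer -/
def epa_add (Dg : GP p m l w N P R) (x y : R) : R :=
  x * y * epa_vv Dg (-((2 : ZMod p)⁻¹ • epa_kk Dg x y))

theorem epa_pi_add (Dg : GP p m l w N P R) (x y : R) :
    Dg.π (epa_add Dg x y) = Dg.π x * Dg.π y := by
  unfold epa_add
  rw [map_mul, epa_vv_pi, mul_one, map_mul]

theorem epa_kk_addl (Dg : GP p m l w N P R) (x x' y : R) :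
    epa_kk Dg (epa_add Dg x x') y = epa_kk Dg x y + epa_kk Dg x' y := by
  unfold epa_add
  rw [epa_kk_mull, epa_kk_vl Dg (epa_vv_pi Dg _), add_zero, epa_kk_mull]

theorem epa_kk_addr (Dg : GP p m l w N P R) (x y y' : R) :
    epa_kk Dg x (epa_add Dg y y') = epa_kk Dg x y + epa_kk Dg x y' := by
  unfold epa_add
  rw [epa_kk_mulr, epa_kk_vr Dg _ (epa_vv_pi Dg _), add_zero, epa_kk_mulr]

theorem epa_assoc (Dg : GP p m l w N P R) (x y z : R) :
    epa_add Dg (epa_add Dg x y) z = epa_add Dg x (epa_add Dg y z) := by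
  have h1 : epa_add Dg (epa_add Dg x y) z = epa_add Dg x y * z *
      epa_vv Dg (-((2 : ZMod p)⁻¹ • (epa_kk Dg x z + epa_kk Dg y z))) := by
    rw [← epa_kk_addl]
    rfl
  have h2 : epa_add Dg x (epa_add Dg y z) = x * epa_add Dg y z *
      epa_vv Dg (-((2 : ZMod p)⁻¹ • (epa_kk Dg x y + epa_kk Dg x z))) := by
    rw [← epa_kk_addr]
    rfl
  rw [h1, h2]
  unfold epa_add
  rw [mul_assoc (x * y) _ z, epa_vv_comm, ← mul_assoc, mul_assoc (x * y * z), ← epa_vv_add,
    ← mul_assoc x (y * z), mul_assoc (x * (y * z)), ← epa_vv_add, ← mul_assoc x y z]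
  congr 2
  simp only [smul_add]
  abel

theorem epa_acomm (hp : p.Prime) (hp2 : p ≠ 2) (Dg : GP p m l w N P R) (x y : R) :
    epa_add Dg x y = epa_add Dg y x := by
  haveI : Fact p.Prime := ⟨hp⟩
  have h2 : (2 : ZMod p) ≠ 0 := by
    intro h
    have h3 : ((2 : ℕ) : ZMod p) = 0 := by exact_mod_cast h
    rw [ZMod.natCast_eq_zero_iff] at h3
    exact hp2 ((Nat.prime_dvd_prime_iff_eq hp Nat.prime_two).mp h3)
  unfold epa_add
  rw [epa_comm Dg x y, epa_vv_comm, mul_assoc, ← epa_vv_add]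
  congr 2
  rw [epa_kk_swap Dg y x, smul_neg, neg_neg]
  have h4 : epa_kk Dg x y = (2 : ZMod p)⁻¹ • epa_kk Dg x y + (2 : ZMod p)⁻¹ • epa_kk Dg x y := by
    rw [← add_smul]
    have h5 : (2 : ZMod p)⁻¹ + (2 : ZMod p)⁻¹ = 1 := by
      rw [← two_mul, mul_inv_cancel₀ h2]
    rw [h5, one_smul]
  nth_rewrite 1 [h4]
  abel

/-- the additive group of Baer -/
@[reducible] def epa_grp (hp : p.Prime) (hp2 : p ≠ 2) (Dg : GP p m l w N P R) :
    AddCommGroup R where
  add := epa_add Dg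
  zero := 1
  neg x := x⁻¹
  add_assoc := epa_assoc Dg
  zero_add x := by
    show epa_add Dg 1 x = x
    unfold epa_add
    rw [one_mul, epa_kk_vl Dg (map_one _), smul_zero, neg_zero, epa_vv_zero, mul_one]
  add_zero x := by
    show epa_add Dg x 1 = x
    unfold epa_add
    rw [mul_one, epa_kk_vr Dg _ (map_one _), smul_zero, neg_zero, epa_vv_zero, mul_one]
  neg_add_cancel x := by
    show epa_add Dg x⁻¹ x = 1
    unfold epa_add
    have h : epa_kk Dg x⁻¹ x = 0 := by
      have h1 := epa_kk_mull Dg x⁻¹ x x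
      rw [inv_mul_cancel, epa_kk_vl Dg (map_one _), epa_kk_self, add_zero] at h1
      exact h1.symm
    rw [h, smul_zero, neg_zero, epa_vv_zero, mul_one, inv_mul_cancel]
  add_comm := epa_acomm hp hp2 Dg
  nsmul n x := x ^ n
  nsmul_zero x := pow_zero x
  nsmul_succ n x := by
    show x ^ (n + 1) = epa_add Dg (x ^ n) x
    unfold epa_add
    rw [epa_kk_pow, smul_zero, neg_zero, epa_vv_zero, mul_one, pow_succ]
  zsmul := @zsmulRec R ⟨1⟩ ⟨epa_add Dg⟩ ⟨fun x => x⁻¹⟩ fun n x => x ^ n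
  zsmul_zero' _ := pow_zero _
  zsmul_succ' n x := by
    show x ^ (n + 1) = epa_add Dg (x ^ n) x
    unfold epa_add
    rw [epa_kk_pow, smul_zero, neg_zero, epa_vv_zero, mul_one, pow_succ]
  zsmul_neg' _ _ := rfl

theorem rexp (hp : p.Prime) (hp2 : p ≠ 2) (Dg : GP p m l w N P R) (r : R) : r ^ p = 1 := by
  letI iA : AddCommGroup R := epa_grp hp hp2 Dg
  have hadd : ∀ x y : R, x + y = epa_add Dg x y := fun _ _ => rfl
  have hsm : ∀ (n : ℕ) (x : R), n • x = x ^ n := fun _ _ => rfl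
  have hz : (0 : R) = 1 := rfl
  -- the product
  have hmul : ∀ x y : R, x * y = x + y + epa_vv Dg ((2 : ZMod p)⁻¹ • epa_kk Dg x y) := by
    intro x y
    rw [hadd, hadd]
    have h1 : epa_add Dg (epa_add Dg x y) (epa_vv Dg ((2 : ZMod p)⁻¹ • epa_kk Dg x y)) =
        epa_add Dg x y * epa_vv Dg ((2 : ZMod p)⁻¹ • epa_kk Dg x y) := by
      rw [epa_add, epa_kk_vr Dg _ (epa_vv_pi Dg _), smul_zero, neg_zero, epa_vv_zero, mul_one]
    rw [h1, epa_add, mul_assoc, ← epa_vv_add, neg_add_cancel, epa_vv_zero, mul_one]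
  let H0 : Subgroup R :=
    { carrier := {x | x ^ p = 1}
      one_mem' := one_pow p
      mul_mem' := by
        intro x y hx hy
        show (x * y) ^ p = 1
        rw [hmul, ← hsm, nsmul_add, nsmul_add, hsm, hsm, hsm, vpow Dg _ (epa_vv_pi Dg _)]
        rw [show x ^ p = 1 from hx, show y ^ p = 1 from hy, ← hz, add_zero, add_zero]
      inv_mem' := by
        intro x hx
        show x⁻¹ ^ p = 1
        rw [inv_pow, show x ^ p = 1 from hx, inv_one] }
  have hH : H0.comap Dg.q = ⊤ := by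
    refine Dg.gen _ fun i x hx => ?_
    show (Dg.q x) ^ p = 1
    obtain ⟨c, hc⟩ := isConj_iff.mp hx.symm
    rw [← map_pow, ← hc, conj_pow, Dg.pow i, mul_one, mul_inv_cancel, map_one]
  obtain ⟨x, rfl⟩ := Dg.qs r
  have h1 : x ∈ H0.comap Dg.q := by rw [hH]; exact Subgroup.mem_top x
  exact h1

theorem vr_exists (hp : p.Prime) (hp2 : p ≠ 2) (Dg : GP p m l w N P R) :
    ∃ vr : R → Fin l → ZMod p, (∀ v, Dg.π v = 1 → ∀ k, vr v k = Dg.cv k v) ∧
      ∀ r r' k, vr (r * r') k = vr r k + vr r' k +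
        2⁻¹ * Dg.kV (Multiplicative.toAdd (Dg.π r)) (Multiplicative.toAdd (Dg.π r')) k := by
  haveI : Fact p.Prime := ⟨hp⟩
  letI iA : AddCommGroup R := epa_grp hp hp2 Dg
  have hadd : ∀ x y : R, x + y = epa_add Dg x y := fun _ _ => rfl
  have hneg : ∀ x : R, -x = x⁻¹ := fun _ => rfl
  have hz : (0 : R) = 1 := rfl
  have hmul : ∀ x y : R, x * y = x + y + epa_vv Dg ((2 : ZMod p)⁻¹ • epa_kk Dg x y) := by
    intro x y
    rw [hadd, hadd]
    have h1 : epa_add Dg (epa_add Dg x y) (epa_vv Dg ((2 : ZMod p)⁻¹ • epa_kk Dg x y)) =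
        epa_add Dg x y * epa_vv Dg ((2 : ZMod p)⁻¹ • epa_kk Dg x y) := by
      rw [epa_add, epa_kk_vr Dg _ (epa_vv_pi Dg _), smul_zero, neg_zero, epa_vv_zero, mul_one]
    rw [h1, epa_add, mul_assoc, ← epa_vv_add, neg_add_cancel, epa_vv_zero, mul_one]
  letI iM : Module (ZMod p) R := AddCommGroup.zmodModule (n := p) fun x => rexp hp hp2 Dg x
  let V0 : AddSubgroup R :=
    { carrier := {x | Dg.π x = 1}
      zero_mem' := map_one _
      add_mem' := by
        intro x y hx hy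
        show Dg.π (x + y) = 1
        rw [hadd, epa_pi_add, show Dg.π x = 1 from hx, show Dg.π y = 1 from hy, one_mul]
      neg_mem' := by
        intro x hx
        show Dg.π (-x) = 1
        rw [hneg, map_inv, show Dg.π x = 1 from hx, inv_one] }
  let V : Submodule (ZMod p) R := AddSubgroup.toZModSubmodule p V0
  have hV : ∀ x : R, x ∈ V ↔ Dg.π x = 1 := fun x => AddSubgroup.mem_toZModSubmodule p
  let f0 : Fin l → V →+ ZMod p := fun k =>
    { toFun := fun v => Dg.cv k v.1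
      map_zero' := epa_cv_one Dg k
      map_add' := by
        intro x y
        show Dg.cv k (x.1 + y.1) = _
        have hx := (hV x.1).mp x.2
        have hy := (hV y.1).mp y.2
        rw [hadd, epa_add, epa_kk_vl Dg hx, smul_zero, neg_zero, epa_vv_zero, mul_one,
          Dg.vadd k _ _ hx hy] }
  have hext : ∀ k, ∃ g : R →ₗ[ZMod p] ZMod p, g ∘ₗ V.subtype = (f0 k).toZModLinearMap p :=
    fun k => LinearMap.exists_extend _
  choose g hg using hext
  have hgV : ∀ k (v : R), Dg.π v = 1 → g k v = Dg.cv k v := by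
    intro k v hv
    have h1 := congrArg (fun F : V →ₗ[ZMod p] ZMod p => F ⟨v, (hV v).mpr hv⟩) (hg k)
    exact h1
  refine ⟨fun r k => g k r, fun v hv k => hgV k v hv, fun r r' k => ?_⟩
  show g k (r * r') = _
  rw [hmul, map_add, map_add, hgV k _ (epa_vv_pi Dg _), epa_vv_cv]
  rfl

end H57.LOW
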